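import Mathlib

set_option autoImplicit false
open Polynomial

namespace Pool.Agent.Helper723.ZeroOne

/-- `log |t| < t` for `t ≥ -1/4`, `t ≠ 0`. -/
theorem log_abs_lt {t : ℝ} (h : -1/4 ≤ t) (h0 : t ≠ 0) : Real.log |t| < t := by
  rcases lt_or_gt_of_ne h0 with hn | hp
  · have h1 : |t| ≤ 1/4 := by rw [abs_of_neg hn]; linarith
    have h2 : 0 < |t| := abs_pos.mpr h0
    have h3 : Real.log |t| ≤ Real.log (1/4) := Real.log_le_log h2 h1
    have h4 : Real.log (1/4 : ℝ) = -(2 * Real.log 2) := by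
      rw [show (1/4 : ℝ) = (2^2)⁻¹ by norm_num, Real.log_inv, Real.log_pow]; norm_num
    have h5 := Real.log_two_gt_d9
    rw [h4] at h3
    linarith
  · rw [abs_of_pos hp]
    have := Real.log_le_sub_one_of_pos hp
    linarith

/-- An algebraic integer, nonzero, all of whose conjugates are real and `≥ -1/4`, has positive
trace. -/
theorem trace_pos {K : Type*} [Field K] [CharZero K] [FiniteDimensional ℚ K] (u : K)
    (hu : IsIntegral ℤ u) (h0 : u ≠ 0)
    (hre : ∀ σ : K →ₐ[ℚ] ℂ, (σ u).im = 0 ∧ -1/4 ≤ (σ u).re) :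
    0 < Algebra.trace ℚ K u := by
  have htr : (algebraMap ℚ ℂ) (Algebra.trace ℚ K u) = ∑ σ : K →ₐ[ℚ] ℂ, σ u :=
    trace_eq_sum_embeddings ℂ
  have hno : (algebraMap ℚ ℂ) (Algebra.norm ℚ u) = ∏ σ : K →ₐ[ℚ] ℂ, σ u :=
    Algebra.norm_eq_prod_embeddings ℚ ℂ u
  have hσ : ∀ σ : K →ₐ[ℚ] ℂ, σ u = (((σ u).re : ℝ) : ℂ) := fun σ => by
    apply Complex.ext
    · simp
    · simp [(hre σ).1]
  have htr2 : ((Algebra.trace ℚ K u : ℚ) : ℝ) = ∑ σ : K →ₐ[ℚ] ℂ, (σ u).re := by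
    have := congrArg Complex.re htr
    simpa using this
  have hno2 : ((Algebra.norm ℚ u : ℚ) : ℝ) = ∏ σ : K →ₐ[ℚ] ℂ, (σ u).re := by
    have h1 : (((Algebra.norm ℚ u : ℚ) : ℝ) : ℂ) = ((∏ σ : K →ₐ[ℚ] ℂ, (σ u).re : ℝ) : ℂ) := by
      push_cast
      rw [show ((Algebra.norm ℚ u : ℚ) : ℂ) = (algebraMap ℚ ℂ) (Algebra.norm ℚ u) from rfl, hno]
      exact Finset.prod_congr rfl fun σ _ => hσ σ
    exact_mod_cast h1
  have hint : IsIntegral ℤ (Algebra.norm ℚ u) := Algebra.isIntegral_norm ℚ hu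
  obtain ⟨N, hN⟩ := IsIntegrallyClosed.isIntegral_iff.mp hint
  have hN0 : Algebra.norm ℚ u ≠ 0 := by
    intro h; exact h0 (Algebra.norm_eq_zero_iff.mp h)
  have hN1 : (1 : ℝ) ≤ |((Algebra.norm ℚ u : ℚ) : ℝ)| := by
    rw [← hN]
    have hNne : N ≠ 0 := by
      rintro rfl; apply hN0; rw [← hN]; simp
    have h2 : (1 : ℤ) ≤ |N| := Int.one_le_abs hNne
    have h3 : ((1 : ℤ) : ℝ) ≤ ((|N| : ℤ) : ℝ) := by exact_mod_cast h2
    simpa using h3
  have hne : ∀ σ : K →ₐ[ℚ] ℂ, (σ u).re ≠ 0 := by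
    intro σ h
    have h3 : σ u = 0 := by rw [hσ σ, h]; simp
    exact h0 ((map_eq_zero σ).mp h3)
  have hlog : 0 ≤ ∑ σ : K →ₐ[ℚ] ℂ, Real.log |(σ u).re| := by
    rw [← Real.log_prod (fun σ _ => by simpa using hne σ), ← Finset.abs_prod, ← hno2]
    exact Real.log_nonneg hN1
  have hcard : (Finset.univ : Finset (K →ₐ[ℚ] ℂ)).Nonempty := by
    have : Nonempty (K →ₐ[ℚ] ℂ) := ⟨IsAlgClosed.lift⟩
    exact Finset.univ_nonempty
  have hlt : ∑ σ : K →ₐ[ℚ] ℂ, Real.log |(σ u).re| < ∑ σ : K →ₐ[ℚ] ℂ, (σ u).re :=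
    Finset.sum_lt_sum_of_nonempty hcard fun σ _ => log_abs_lt (hre σ).2 (hne σ)
  have : (0 : ℝ) < ((Algebra.trace ℚ K u : ℚ) : ℝ) := by rw [htr2]; linarith
  exact_mod_cast this

/-- If such algebraic integers sum to zero, all vanish. -/
theorem all_zero {K : Type*} [Field K] [CharZero K] [FiniteDimensional ℚ K] {ι : Type*}
    (s : Finset ι) (u : ι → K) (hu : ∀ i ∈ s, IsIntegral ℤ (u i))
    (hre : ∀ i ∈ s, ∀ σ : K →ₐ[ℚ] ℂ, (σ (u i)).im = 0 ∧ -1/4 ≤ (σ (u i)).re)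
    (hsum : ∑ i ∈ s, u i = 0) : ∀ i ∈ s, u i = 0 := by
  intro i hi
  by_contra h0
  have h1 : ∑ i ∈ s, Algebra.trace ℚ K (u i) = 0 := by
    rw [← map_sum, hsum, map_zero]
  have h2 : ∀ j ∈ s, 0 ≤ Algebra.trace ℚ K (u j) := by
    intro j hj
    by_cases h : u j = 0
    · rw [h, map_zero]
    · exact (trace_pos (u j) (hu j hj) h (hre j hj)).le
  have h3 := (Finset.sum_eq_zero_iff_of_nonneg h2).mp h1 i hi
  exact absurd h3 (trace_pos (u i) (hu i hi) h0 (hre i hi)).ne'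

/-- The key identity: `∑ (A_k^2 - A_k) = 0` for `A = P * reflect n Q`. -/
theorem sum_identity {F : Type*} [CommRing F] (P Q : F[X]) (m n : ℕ) (hP : P.natDegree ≤ m)
    (hQ : Q.natDegree ≤ n) (hR : ∀ k, (P * Q).coeff k ^ 2 = (P * Q).coeff k) :
    ∑ k ∈ Finset.range (m + n + 1),
      ((P * reflect n Q).coeff k ^ 2 - (P * reflect n Q).coeff k) = 0 := by
  have hS : ∀ f : F[X], f.natDegree ≤ m + n →
      (f * reflect (m + n) f).coeff (m + n) = ∑ k ∈ Finset.range (m + n + 1), f.coeff k ^ 2 := by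
    intro f _
    rw [coeff_mul, Finset.Nat.sum_antidiagonal_eq_sum_range_succ_mk]
    refine Finset.sum_congr rfl fun k hk => ?_
    have hk' : k ≤ m + n := by simpa [Nat.lt_succ_iff] using hk
    simp only [coeff_reflect]
    rw [revAt_le (by omega), show m + n - (m + n - k) = k by omega, sq]
  have hE : ∀ f : F[X], f.natDegree ≤ m + n →
      f.eval 1 = ∑ k ∈ Finset.range (m + n + 1), f.coeff k := by
    intro f hf
    rw [eval_eq_sum_range' (n := m + n + 1) (by omega)]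
    simp
  have hQr : (reflect n Q).natDegree ≤ n := by
    rw [natDegree_le_iff_coeff_eq_zero]
    intro k hk
    rw [coeff_reflect, revAt_eq_self_of_lt hk]
    exact coeff_eq_zero_of_natDegree_lt (by omega)
  have hA : (P * reflect n Q).natDegree ≤ m + n := natDegree_mul_le.trans (by omega)
  have hPQ : (P * Q).natDegree ≤ m + n := natDegree_mul_le.trans (by omega)
  have h1 : (P * reflect n Q) * reflect (m + n) (P * reflect n Q)
      = (P * Q) * reflect (m + n) (P * Q) := by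
    rw [reflect_mul P (reflect n Q) hP hQr, reflect_mul P Q hP hQ, reflect_reflect]
    ring
  have h2 : (P * reflect n Q).eval 1 = (P * Q).eval 1 := by
    let _ : Invertible (1 : F) := invertibleOne
    have h3 := eval₂_reflect_mul_pow (RingHom.id F) (1 : F) n Q hQ
    have h4 : (reflect n Q).eval 1 = Q.eval 1 := by
      simpa [eval₂_id] using h3
    rw [eval_mul, eval_mul, h4]
  rw [Finset.sum_sub_distrib, ← hS _ hA, h1, hS _ hPQ, ← hE _ hA, h2, hE _ hPQ]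
  rw [← Finset.sum_sub_distrib]
  exact Finset.sum_eq_zero fun k _ => by rw [hR k, sub_self]

end Pool.Agent.Helper723.ZeroOne
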