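import Mathlib

set_option autoImplicit false
open Polynomial

namespace Pool.Agent.Helper723.ZeroOne

/-- Combinatorial step: from `a_s b_s = 0` for `s ≥ 1` and `0,1` convolution to `0,1` sequences. -/
theorem seq_zo (a b : ℕ → ℝ) (ha : ∀ i, 0 ≤ a i) (hb : ∀ i, 0 ≤ b i) (ha0 : a 0 = 1)
    (hb0 : b 0 = 1) (hab : ∀ s, 1 ≤ s → a s * b s = 0)
    (hR : ∀ s, (∑ x ∈ Finset.HasAntidiagonal.antidiagonal s, a x.1 * b x.2) = 0 ∨
      (∑ x ∈ Finset.HasAntidiagonal.antidiagonal s, a x.1 * b x.2) = 1) :
    ∀ s, (a s = 0 ∨ a s = 1) ∧ (b s = 0 ∨ b s = 1) := by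
  intro s
  induction s using Nat.strong_induction_on with
  | _ s ih =>
    rcases Nat.eq_zero_or_pos s with rfl | hs
    · exact ⟨Or.inr ha0, Or.inr hb0⟩
    · -- split off the two extreme terms
      obtain ⟨t, rfl⟩ : ∃ t, s = t + 1 := ⟨s - 1, by omega⟩
      have hsplit : (∑ x ∈ Finset.HasAntidiagonal.antidiagonal (t + 1), a x.1 * b x.2)
          = b (t + 1) + a (t + 1) + ∑ x ∈ Finset.range t, a (x + 1) * b (t - x) := by
        rw [Finset.Nat.sum_antidiagonal_eq_sum_range_succ_mk, Finset.sum_range_succ,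
          Finset.sum_range_succ']
        simp only [ha0, hb0, Nat.sub_self, Nat.sub_zero, one_mul, mul_one]
        have : ∀ x ∈ Finset.range t, a (x + 1) * b (t + 1 - (x + 1)) = a (x + 1) * b (t - x) := by
          intro x _; congr 2; omega
        rw [Finset.sum_congr rfl this]; ring
      have hint : ∃ N : ℕ, (∑ x ∈ Finset.range t, a (x + 1) * b (t - x)) = N := by
        have : ∀ x ∈ Finset.range t, ∃ N : ℕ, a (x + 1) * b (t - x) = N := by
          intro x hx
          have hx' : x < t := Finset.mem_range.mp hx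
          have h1 := (ih (x + 1) (by omega)).1
          have h2 := (ih (t - x) (by omega)).2
          rcases h1 with h1 | h1 <;> rcases h2 with h2 | h2 <;> rw [h1, h2]
          · exact ⟨0, by simp⟩
          · exact ⟨0, by simp⟩
          · exact ⟨0, by simp⟩
          · exact ⟨1, by simp⟩
        choose! f hf using this
        refine ⟨∑ x ∈ Finset.range t, f x, ?_⟩
        rw [Nat.cast_sum]
        exact Finset.sum_congr rfl hf
      obtain ⟨N, hN⟩ := hint
      have hR' := hR (t + 1)
      rw [hsplit, hN] at hR'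
      have hN0 : (0 : ℝ) ≤ N := Nat.cast_nonneg N
      have key : ∀ w : ℝ, 0 ≤ w → (w + N = 0 ∨ w + N = 1) → (w = 0 ∨ w = 1) := by
        intro w hw h
        rcases h with h | h
        · left; linarith
        · have hN1 : (N : ℝ) ≤ 1 := by linarith
          have hN2 : N ≤ 1 := by exact_mod_cast hN1
          interval_cases N
          · right; simpa using h
          · left; push_cast at h; linarith
      rcases mul_eq_zero.mp (hab (t + 1) (by omega)) with h0 | h0
      · refine ⟨Or.inl h0, key _ (hb _) ?_⟩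
        rw [h0] at hR'
        rcases hR' with h | h
        · left; linarith
        · right; linarith
      · refine ⟨key _ (ha _) ?_, Or.inl h0⟩
        rw [h0] at hR'
        rcases hR' with h | h
        · left; linarith
        · right; linarith

/-- Last step: if `A = P * reflect n Q` has coefficient `A_m ≤ 1`, then `P` and `Q` are `0,1`. -/
theorem last_step (P Q : ℝ[X]) (hP : P.Monic) (hQ : Q.Monic) (hp : ∀ i, 0 ≤ P.coeff i)
    (hq : ∀ i, 0 ≤ Q.coeff i)
    (hR : ∀ k, (P * Q).coeff k = 0 ∨ (P * Q).coeff k = 1)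
    (hA : (P * reflect Q.natDegree Q).coeff P.natDegree ≤ 1) :
    (∀ i, P.coeff i = 0 ∨ P.coeff i = 1) ∧ (∀ i, Q.coeff i = 0 ∨ Q.coeff i = 1) := by
  set m := P.natDegree with hm
  set n := Q.natDegree with hn
  set a : ℕ → ℝ := fun i => (reflect m P).coeff i with ha
  set b : ℕ → ℝ := fun i => (reflect n Q).coeff i with hb
  have ha_nonneg : ∀ i, 0 ≤ a i := fun i => by simp only [ha, coeff_reflect]; exact hp _
  have hb_nonneg : ∀ i, 0 ≤ b i := fun i => by simp only [hb, coeff_reflect]; exact hq _
  have ha0 : a 0 = 1 := by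
    simp only [ha, coeff_reflect]; rw [revAt_le (Nat.zero_le _), Nat.sub_zero]; exact hP.coeff_natDegree
  have hb0 : b 0 = 1 := by
    simp only [hb, coeff_reflect]; rw [revAt_le (Nat.zero_le _), Nat.sub_zero]; exact hQ.coeff_natDegree
  have hamz : ∀ i, m < i → a i = 0 := fun i hi => by
    simp only [ha, coeff_reflect]; rw [revAt_eq_self_of_lt hi]
    exact coeff_eq_zero_of_natDegree_lt (by omega)
  have hA2 : (P * reflect n Q).coeff m = ∑ k ∈ Finset.range (m + 1), a k * b k := by
    rw [coeff_mul, Finset.Nat.sum_antidiagonal_eq_sum_range_succ_mk, ← Finset.sum_range_reflect]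
    refine Finset.sum_congr rfl fun k hk => ?_
    have hk' : k ≤ m := by simpa [Nat.lt_succ_iff] using hk
    have e1 : P.coeff (m + 1 - 1 - k) = a k := by
      simp only [ha, coeff_reflect]
      rw [revAt_le hk', show m + 1 - 1 - k = m - k by omega]
    have e2 : m - (m + 1 - 1 - k) = k := by omega
    rw [e1, e2]
  have hab : ∀ s, 1 ≤ s → a s * b s = 0 := by
    intro s hs
    by_cases hsm : m < s
    · rw [hamz s hsm, zero_mul]
    · rw [hA2] at hA
      have h1 : a 0 * b 0 + a s * b s ≤ ∑ k ∈ Finset.range (m + 1), a k * b k := by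
        have hsub : ({0, s} : Finset ℕ) ⊆ Finset.range (m + 1) := by
          intro x hx
          simp only [Finset.mem_insert, Finset.mem_singleton] at hx
          rw [Finset.mem_range]; omega
        have h2 := Finset.sum_le_sum_of_subset_of_nonneg hsub
          (fun k _ _ => mul_nonneg (ha_nonneg k) (hb_nonneg k))
        rwa [Finset.sum_pair (by omega)] at h2
      rw [ha0, hb0] at h1
      have h3 := mul_nonneg (ha_nonneg s) (hb_nonneg s)
      linarith
  have hRr : ∀ s, (∑ x ∈ Finset.HasAntidiagonal.antidiagonal s, a x.1 * b x.2) = 0 ∨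
      (∑ x ∈ Finset.HasAntidiagonal.antidiagonal s, a x.1 * b x.2) = 1 := by
    intro s
    have h1 : (∑ x ∈ Finset.HasAntidiagonal.antidiagonal s, a x.1 * b x.2) = (reflect (m + n) (P * Q)).coeff s := by
      rw [reflect_mul P Q le_rfl le_rfl, coeff_mul]
    rw [h1, coeff_reflect]
    exact hR _
  have hfin := seq_zo a b ha_nonneg hb_nonneg ha0 hb0 hab hRr
  constructor
  · intro i
    have h1 := (hfin (revAt m i)).1
    simp only [ha, coeff_reflect, revAt_invol] at h1
    exact h1
  · intro i
    have h1 := (hfin (revAt n i)).2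
    simp only [hb, coeff_reflect, revAt_invol] at h1
    exact h1

end Pool.Agent.Helper723.ZeroOne
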