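import Mathlib
import Pool.Agent.Helper723.ZO1
import Pool.Agent.Helper723.ZO2

set_option autoImplicit false
open Polynomial

namespace Pool.Agent.Helper723.ZeroOne

/-- In the field generated over `ℚ` by reals all of whose conjugates are real, all embeddings
are real. -/
theorem im_zero (S : Set ℝ) (hS : ∀ x ∈ S, ∀ z : ℂ, aeval z (minpoly ℚ x) = 0 → z.im = 0)
    (σ : IntermediateField.adjoin ℚ S →ₐ[ℚ] ℂ) (x : IntermediateField.adjoin ℚ S) :
    (σ x).im = 0 := by
  have h : ((Complex.conjAe.toAlgHom.restrictScalars ℚ).comp σ) = σ := by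
    apply IntermediateField.adjoin_algHom_ext
    intro x hx
    set y : IntermediateField.adjoin ℚ S := ⟨x, IntermediateField.subset_adjoin ℚ S hx⟩ with hy
    have h0 : algebraMap (IntermediateField.adjoin ℚ S) ℝ y = x := rfl
    have h1 : aeval y (minpoly ℚ x) = 0 := by
      apply (algebraMap (IntermediateField.adjoin ℚ S) ℝ).injective
      rw [map_zero, ← Polynomial.aeval_algebraMap_apply, h0, minpoly.aeval]
    have h2 : aeval (σ y) (minpoly ℚ x) = 0 := by
      rw [Polynomial.aeval_algHom_apply, h1, map_zero]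
    have h3 := hS x hx (σ y) h2
    exact Complex.conj_eq_iff_im.mpr h3
  have h2 := DFunLike.congr_fun h x
  have h3 : (starRingEnd ℂ) (σ x) = σ x := h2
  exact Complex.conj_eq_iff_im.mp h3

theorem main (P Q : ℝ[X]) (hP : P.Monic) (hQ : Q.Monic) (hp : ∀ i, 0 ≤ P.coeff i)
    (hq : ∀ i, 0 ≤ Q.coeff i)
    (hR : ∀ k, (P * Q).coeff k = 0 ∨ (P * Q).coeff k = 1)
    (htr : ∀ i, ∀ z : ℂ, aeval z (minpoly ℚ (P.coeff i)) = 0 → z.im = 0) :
    (∀ i, P.coeff i = 0 ∨ P.coeff i = 1) ∧ (∀ i, Q.coeff i = 0 ∨ Q.coeff i = 1) := by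
  classical
  -- an integer polynomial
  obtain ⟨f, hf⟩ : ∃ f : ℤ[X], f.map (algebraMap ℤ ℝ) = P * Q := by
    rw [← mem_lifts, lifts_iff_coeff_lifts]
    intro n
    rcases hR n with h | h <;> rw [h]
    · exact ⟨0, by simp⟩
    · exact ⟨1, by simp⟩
  have hfm : f.Monic := by
    have hinj : Function.Injective (algebraMap ℤ ℝ) := Int.cast_injective
    refine (Function.Injective.monic_map_iff hinj).mpr ?_
    rw [hf]; exact hP.mul hQ
  have hlift : ∀ g : ℝ[X], g.Monic → g ∣ P * Q → ∀ i, IsIntegral ℤ (g.coeff i) := by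
    intro g hg hd i
    have h1 := integralClosure.mem_lifts_of_monic_of_dvd_map ℝ hfm hg (by rw [hf]; exact hd)
    obtain ⟨y, hy⟩ := (lifts_iff_coeff_lifts _).1 h1 i
    rw [← hy]; exact y.2
  have hPint := hlift P hP (dvd_mul_right _ _)
  have hQint := hlift Q hQ (dvd_mul_left _ _)
  set S : Set ℝ := (P.coeffs : Set ℝ) with hS
  set K := IntermediateField.adjoin ℚ S with hK
  have hSint : ∀ x ∈ S, IsIntegral ℚ x := by
    intro x hx
    obtain ⟨i, _, hi⟩ := mem_coeffs_iff.mp (Finset.mem_coe.mp hx)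
    rw [hi]; exact (hPint i).tower_top
  have hfin : FiniteDimensional ℚ K := IntermediateField.finiteDimensional_adjoin hSint
  have himz : ∀ (σ : K →ₐ[ℚ] ℂ) (x : K), (σ x).im = 0 := by
    intro σ x
    refine im_zero S ?_ σ x
    intro x hx z hz
    obtain ⟨i, _, hi⟩ := mem_coeffs_iff.mp (Finset.mem_coe.mp hx)
    rw [hi] at hz
    exact htr i z hz
  have hPK : ∀ i, P.coeff i ∈ K := by
    intro i
    by_cases h : P.coeff i = 0
    · rw [h]; exact K.zero_mem
    · exact IntermediateField.subset_adjoin ℚ S (Finset.mem_coe.mpr (coeff_mem_coeffs h))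
  obtain ⟨PK, hPKm⟩ : ∃ g : K[X], g.map (algebraMap K ℝ) = P := by
    rw [← mem_lifts, lifts_iff_coeff_lifts]
    intro n
    exact ⟨⟨P.coeff n, hPK n⟩, rfl⟩
  obtain ⟨RK, hRKm⟩ : ∃ g : K[X], g.map (algebraMap K ℝ) = P * Q := by
    rw [← mem_lifts, lifts_iff_coeff_lifts]
    intro n
    rcases hR n with h | h <;> rw [h]
    · exact ⟨0, by simp⟩
    · exact ⟨1, by simp⟩
  have hinj : Function.Injective (algebraMap K ℝ) := (algebraMap K ℝ).injective
  have hPKmon : PK.Monic := by
    refine (Function.Injective.monic_map_iff hinj).mpr ?_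
    rw [hPKm]; exact hP
  set QK := RK /ₘ PK with hQK
  have hQKm : QK.map (algebraMap K ℝ) = Q := by
    rw [hQK, map_divByMonic _ hPKmon, hPKm, hRKm, mul_divByMonic_cancel_left _ hP]
  have hmul : (PK * QK).map (algebraMap K ℝ) = P * Q := by rw [Polynomial.map_mul, hPKm, hQKm]
  set m := P.natDegree with hm
  set n := Q.natDegree with hn
  have hPKd : PK.natDegree ≤ m := by rw [hm, ← hPKm, natDegree_map]
  have hQKd : QK.natDegree ≤ n := by rw [hn, ← hQKm, natDegree_map]
  have hAm : (PK * reflect n QK).map (algebraMap K ℝ) = P * reflect n Q := by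
    rw [Polynomial.map_mul, hPKm, ← reflect_map, hQKm]
  have hid := sum_identity PK QK m n hPKd hQKd (by
    intro k
    apply hinj
    have h1 : algebraMap K ℝ ((PK * QK).coeff k) = (P * Q).coeff k := by
      rw [← coeff_map, hmul]
    rw [map_pow, h1]
    rcases hR k with h | h <;> rw [h] <;> norm_num)
  have hAint : ∀ k, IsIntegral ℤ ((PK * reflect n QK).coeff k) := by
    intro k
    refine (isIntegral_algebraMap_iff (B := ℝ) hinj).mp ?_
    rw [← coeff_map, hAm, coeff_mul]
    refine IsIntegral.sum _ fun x _ => ?_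
    refine IsIntegral.mul (hPint _) ?_
    rw [coeff_reflect]; exact hQint _
  have hz := all_zero (Finset.range (m + n + 1))
    (fun k => (PK * reflect n QK).coeff k ^ 2 - (PK * reflect n QK).coeff k)
    (fun k _ => ((hAint k).pow 2).sub (hAint k))
    (fun k _ σ => by
      have h1 := himz σ ((PK * reflect n QK).coeff k)
      set z := σ ((PK * reflect n QK).coeff k) with hz
      have h2 : z = ((z.re : ℝ) : ℂ) := by apply Complex.ext <;> simp [h1]
      rw [map_sub, map_pow, ← hz, h2]
      constructor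
      · rw [← Complex.ofReal_pow, ← Complex.ofReal_sub]; exact Complex.ofReal_im _
      · rw [← Complex.ofReal_pow, ← Complex.ofReal_sub, Complex.ofReal_re]
        nlinarith [sq_nonneg (z.re - 1/2)])
    hid
  have hzm := hz m (Finset.mem_range.mpr (by omega))
  refine last_step P Q hP hQ hp hq hR ?_
  have h1 : (P * reflect n Q).coeff m = algebraMap K ℝ ((PK * reflect n QK).coeff m) := by
    rw [← coeff_map, hAm]
  have h2 : (P * reflect n Q).coeff m ^ 2 - (P * reflect n Q).coeff m = 0 := by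
    rw [h1, ← map_pow, ← map_sub]
    have h3 := congrArg (algebraMap K ℝ) hzm
    rw [map_zero] at h3
    exact h3
  nlinarith [sq_nonneg ((P * reflect n Q).coeff m - 1)]

end Pool.Agent.Helper723.ZeroOne
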