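import Mathlib

set_option autoImplicit false

namespace Pool.Agent.Helper723.Delta1

open Finset

/-! planar corners -/

def Down2 (Q : ℕ → ℕ → Prop) : Prop :=
  ∀ x y x' y', Q x y → x' ≤ x → y' ≤ y → Q x' y'

def IsCor (Q : ℕ → ℕ → Prop) (a b : ℕ) : Prop :=
  0 < a ∧ 0 < b ∧ ¬ Q a b ∧ Q (a - 1) b ∧ Q a (b - 1)

lemma IsCor.swap {Q : ℕ → ℕ → Prop} {a b : ℕ} (h : IsCor Q a b) :
    IsCor (fun x y => Q y x) b a :=
  ⟨h.2.1, h.1, h.2.2.1, h.2.2.2.2, h.2.2.2.1⟩

lemma cor_anti {Q : ℕ → ℕ → Prop} (hQ : Down2 Q) {a1 b1 a2 b2 : ℕ}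
    (h1 : IsCor Q a1 b1) (h2 : IsCor Q a2 b2) (h : a1 < a2) : b2 < b1 := by
  by_contra hcon
  push Not at hcon
  exact h1.2.2.1 (hQ _ _ _ _ h2.2.2.2.1 (by omega) hcon)

lemma cor_eq1 {Q : ℕ → ℕ → Prop} (hQ : Down2 Q) {a1 b1 a2 b2 : ℕ}
    (h1 : IsCor Q a1 b1) (h2 : IsCor Q a2 b2) (h : a1 = a2) : b1 = b2 := by
  by_contra hcon
  rcases Nat.lt_or_gt_of_ne hcon with h3 | h3
  · exact h1.2.2.1 (hQ _ _ _ _ h2.2.2.2.2 (by omega) (by omega))
  · exact h2.2.2.1 (hQ _ _ _ _ h1.2.2.2.2 (by omega) (by omega))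

lemma cor_anti' {Q : ℕ → ℕ → Prop} (hQ : Down2 Q) {a1 b1 a2 b2 : ℕ}
    (h1 : IsCor Q a1 b1) (h2 : IsCor Q a2 b2) (h : b2 < b1) : a1 < a2 := by
  by_contra hcon
  push Not at hcon
  exact h2.2.2.1 (hQ _ _ _ _ h1.2.2.2.2 hcon (by omega))

/-- a corner below a non-member with both axis projections members -/
lemma exists_cor {Q : ℕ → ℕ → Prop} (hQ : Down2 Q) :
    ∀ (n x y : ℕ), x + y = n → ¬ Q x y → Q x 0 → Q 0 y →
      ∃ a b, a ≤ x ∧ b ≤ y ∧ IsCor Q a b := by
  intro n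
  induction n using Nat.strong_induction_on with
  | _ n ih =>
    intro x y hn hxy hx hy
    have hx0 : 0 < x := by
      rcases Nat.eq_zero_or_pos x with h | h
      · subst h; exact absurd hy hxy
      · exact h
    have hy0 : 0 < y := by
      rcases Nat.eq_zero_or_pos y with h | h
      · subst h; exact absurd hx hxy
      · exact h
    by_cases h1 : Q (x - 1) y
    · by_cases h2 : Q x (y - 1)
      · exact ⟨x, y, le_refl _, le_refl _, hx0, hy0, hxy, h1, h2⟩
      · obtain ⟨a, b, ha, hb, hc⟩ := ih (x + (y - 1)) (by omega) x (y - 1) rfl h2 hx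
          (hQ _ _ _ _ hy (le_refl _) (by omega))
        exact ⟨a, b, ha, by omega, hc⟩
    · obtain ⟨a, b, ha, hb, hc⟩ := ih ((x - 1) + y) (by omega) (x - 1) y rfl h1
        (hQ _ _ _ _ hx (by omega) (le_refl _)) hy
      exact ⟨a, b, by omega, hb, hc⟩

/-- counting corners around a non-member -/
lemma count_bound {Q : ℕ → ℕ → Prop} (hQ : Down2 Q) (D : Finset (ℕ × ℕ)) (s t : ℕ)
    (hD : ∀ p ∈ D, IsCor Q p.1 p.2 ∧ s < p.1 ∧ t < p.2) (w1 w2 : ℕ) (hw : ¬ Q w1 w2)
    (h1 : s < w1) (h2 : t < w2) : D.card + 1 + s + t ≤ w1 + w2 := by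
  have hsub : D ⊆ (D.filter (fun p => p.1 < w1) ∪ D.filter (fun p => p.2 < w2)) ∪ {(w1, w2)} := by
    intro p hp
    simp only [Finset.mem_union, Finset.mem_filter, Finset.mem_singleton]
    by_cases c1 : p.1 < w1
    · exact Or.inl (Or.inl ⟨hp, c1⟩)
    · by_cases c2 : p.2 < w2
      · exact Or.inl (Or.inr ⟨hp, c2⟩)
      · right
        have hc := (hD p hp).1
        have e1 : p.1 = w1 := by
          by_contra hne
          exact hw (hQ _ _ _ _ hc.2.2.2.1 (by omega) (by omega))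
        have e2 : p.2 = w2 := by
          by_contra hne
          exact hw (hQ _ _ _ _ hc.2.2.2.2 (by omega) (by omega))
        exact Prod.ext e1 e2
  have c1 : (D.filter (fun p => p.1 < w1)).card ≤ (Finset.Ioo s w1).card := by
    refine Finset.card_le_card_of_injOn (fun p => p.1) ?_ ?_
    · intro p hp
      simp only [Finset.coe_filter, Set.mem_ofPred_eq] at hp
      have := (hD p hp.1).2.1
      simp only [Finset.coe_Ioo, Set.mem_Ioo]
      omega
    · intro p hp p' hp' hpp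
      simp only [Finset.coe_filter, Set.mem_ofPred_eq] at hp hp'
      exact Prod.ext hpp (cor_eq1 hQ (hD p hp.1).1 (hD p' hp'.1).1 hpp)
  have c2 : (D.filter (fun p => p.2 < w2)).card ≤ (Finset.Ioo t w2).card := by
    refine Finset.card_le_card_of_injOn (fun p => p.2) ?_ ?_
    · intro p hp
      simp only [Finset.coe_filter, Set.mem_ofPred_eq] at hp
      have := (hD p hp.1).2.2
      simp only [Finset.coe_Ioo, Set.mem_Ioo]
      omega
    · intro p hp p' hp' hpp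
      simp only [Finset.coe_filter, Set.mem_ofPred_eq] at hp hp'
      refine Prod.ext ?_ hpp
      exact cor_eq1 (Q := fun x y => Q y x) (fun x y x' y' h a b => hQ _ _ _ _ h b a)
        (hD p hp.1).1.swap (hD p' hp'.1).1.swap hpp
  have c3 := Finset.card_le_card hsub
  have c4 := Finset.card_union_le (D.filter (fun p => p.1 < w1) ∪ D.filter (fun p => p.2 < w2))
    {(w1, w2)}
  have c5 := Finset.card_union_le (D.filter (fun p => p.1 < w1)) (D.filter (fun p => p.2 < w2))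
  rw [Nat.card_Ioo] at c1 c2
  rw [Finset.card_singleton] at c4
  omega

/-! tiles -/

section tile

variable {R : Type*} [CommRing R]

structure Tile (P : ℕ → ℕ → ℕ → Prop) (e1 e2 e3 : R) : Prop where
  down : ∀ x y z x' y' z', P x y z → x' ≤ x → y' ≤ y → z' ≤ z → P x' y' z'
  inj : ∀ x y z x' y' z' : ℕ, P x y z → P x' y' z' →
    (x : R) * e1 + (y : R) * e2 + (z : R) * e3 = (x' : R) * e1 + (y' : R) * e2 + (z' : R) * e3 →
    x = x' ∧ y = y' ∧ z = z'
  surj : ∀ x y z : ℕ, ∃ x' y' z' : ℕ, P x' y' z' ∧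
    (x : R) * e1 + (y : R) * e2 + (z : R) * e3 = (x' : R) * e1 + (y' : R) * e2 + (z' : R) * e3

variable {P : ℕ → ℕ → ℕ → Prop} {e1 e2 e3 : R}

lemma Tile.swap12 (h : Tile P e1 e2 e3) : Tile (fun x y z => P y x z) e2 e1 e3 where
  down := fun x y z x' y' z' hp a b c => h.down _ _ _ _ _ _ hp b a c
  inj := fun x y z x' y' z' hp hp' he => by
    have := h.inj y x z y' x' z' hp hp' (by linear_combination he)
    exact ⟨this.2.1, this.1, this.2.2⟩
  surj := fun x y z => by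
    obtain ⟨a, b, c, h1, h2⟩ := h.surj y x z
    exact ⟨b, a, c, h1, by linear_combination h2⟩

lemma Tile.swap23 (h : Tile P e1 e2 e3) : Tile (fun x y z => P x z y) e1 e3 e2 where
  down := fun x y z x' y' z' hp a b c => h.down _ _ _ _ _ _ hp a c b
  inj := fun x y z x' y' z' hp hp' he => by
    have := h.inj x z y x' z' y' hp hp' (by linear_combination he)
    exact ⟨this.1, this.2.2, this.2.1⟩
  surj := fun x y z => by
    obtain ⟨a, b, c, h1, h2⟩ := h.surj x z y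
    exact ⟨a, c, b, h1, by linear_combination h2⟩

lemma Tile.d12 (h : Tile P e1 e2 e3) : Down2 (fun x y => P x y 0) :=
  fun x y x' y' hp a b => h.down _ _ _ _ _ _ hp a b (le_refl _)

lemma Tile.d13 (h : Tile P e1 e2 e3) : Down2 (fun x y => P x 0 y) :=
  fun x y x' y' hp a b => h.down _ _ _ _ _ _ hp a (le_refl _) b

lemma Tile.d23 (h : Tile P e1 e2 e3) : Down2 (fun x y => P 0 x y) :=
  fun x y x' y' hp a b => h.down _ _ _ _ _ _ hp (le_refl _) a b

lemma Tile.zero (h : Tile P e1 e2 e3) : P 0 0 0 := by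
  obtain ⟨a, b, c, h1, -⟩ := h.surj 0 0 0
  exact h.down _ _ _ _ _ _ h1 (Nat.zero_le _) (Nat.zero_le _) (Nat.zero_le _)

def Full (P : ℕ → ℕ → ℕ → Prop) (al be ga : ℕ) : Prop :=
  0 < al ∧ 0 < be ∧ 0 < ga ∧ ¬ P al be ga ∧ P (al - 1) be ga ∧ P al (be - 1) ga ∧ P al be (ga - 1)

lemma Full.swap12 {al be ga : ℕ} (h : Full P al be ga) : Full (fun x y z => P y x z) be al ga :=
  ⟨h.2.1, h.1, h.2.2.1, h.2.2.2.1, h.2.2.2.2.2.1, h.2.2.2.2.1, h.2.2.2.2.2.2⟩

lemma Full.swap23 {al be ga : ℕ} (h : Full P al be ga) : Full (fun x y z => P x z y) al ga be :=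
  ⟨h.1, h.2.2.1, h.2.1, h.2.2.2.1, h.2.2.2.2.1, h.2.2.2.2.2.2, h.2.2.2.2.2.1⟩

/-- the full corner has tail zero -/
lemma full_zero (h : Tile P e1 e2 e3) {al be ga : ℕ} (hu : Full P al be ga) :
    (al : R) * e1 + (be : R) * e2 + (ga : R) * e3 = 0 := by
  obtain ⟨h1, h2, h3, h4, h5, h6, h7⟩ := hu
  obtain ⟨x, y, z, hp, he⟩ := h.surj al be ga
  rcases Nat.eq_zero_or_pos x with hx | hx
  · rcases Nat.eq_zero_or_pos y with hy | hy
    · rcases Nat.eq_zero_or_pos z with hz | hz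
      · subst hx hy hz
        simpa using he
      · exfalso
        have hp' := h.down _ _ _ x y (z - 1) hp (le_refl _) (le_refl _) (by omega)
        obtain ⟨q1, q2, q3⟩ := h.inj _ _ _ _ _ _ h7 hp' (by
          obtain ⟨g', rfl⟩ : ∃ g', ga = g' + 1 := ⟨ga - 1, by omega⟩
          obtain ⟨z', rfl⟩ : ∃ z', z = z' + 1 := ⟨z - 1, by omega⟩
          simp only [Nat.add_sub_cancel]
          push_cast at he ⊢
          linear_combination he)
        apply h4
        rw [q1, q2, show ga = z by omega]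
        exact hp
    · exfalso
      have hp' := h.down _ _ _ x (y - 1) z hp (le_refl _) (by omega) (le_refl _)
      obtain ⟨q1, q2, q3⟩ := h.inj _ _ _ _ _ _ h6 hp' (by
        obtain ⟨g', rfl⟩ : ∃ g', be = g' + 1 := ⟨be - 1, by omega⟩
        obtain ⟨z', rfl⟩ : ∃ z', y = z' + 1 := ⟨y - 1, by omega⟩
        simp only [Nat.add_sub_cancel]
        push_cast at he ⊢
        linear_combination he)
      apply h4
      rw [q1, q3, show be = y by omega]
      exact hp
  · exfalso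
    have hp' := h.down _ _ _ (x - 1) y z hp (by omega) (le_refl _) (le_refl _)
    obtain ⟨q1, q2, q3⟩ := h.inj _ _ _ _ _ _ h5 hp' (by
      obtain ⟨g', rfl⟩ : ∃ g', al = g' + 1 := ⟨al - 1, by omega⟩
      obtain ⟨z', rfl⟩ : ∃ z', x = z' + 1 := ⟨x - 1, by omega⟩
      simp only [Nat.add_sub_cancel]
      push_cast at he ⊢
      linear_combination he)
    apply h4
    rw [q2, q3, show al = x by omega]
    exact hp

/-- the tail of a planar corner is a pure power of the third variable -/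
lemma cor_tail (h : Tile P e1 e2 e3) {a b : ℕ} (hc : IsCor (fun x y => P x y 0) a b) :
    ∃ c, P 0 0 c ∧ (a : R) * e1 + (b : R) * e2 = (c : R) * e3 := by
  obtain ⟨h1, h2, h3, h4, h5⟩ := hc
  obtain ⟨x, y, z, hp, he⟩ := h.surj a b 0
  rcases Nat.eq_zero_or_pos x with hx | hx
  · rcases Nat.eq_zero_or_pos y with hy | hy
    · subst hx hy
      refine ⟨z, hp, ?_⟩
      push_cast at he
      linear_combination he
    · exfalso
      have hp' := h.down _ _ _ x (y - 1) z hp (le_refl _) (by omega) (le_refl _)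
      obtain ⟨q1, q2, q3⟩ := h.inj _ _ _ _ _ _ h5 hp' (by
        obtain ⟨g', rfl⟩ : ∃ g', b = g' + 1 := ⟨b - 1, by omega⟩
        obtain ⟨z', rfl⟩ : ∃ z', y = z' + 1 := ⟨y - 1, by omega⟩
        simp only [Nat.add_sub_cancel]
        push_cast at he ⊢
        linear_combination he)
      apply h3
      show P a b 0
      rw [q1, q3, show b = y by omega]
      exact hp
  · exfalso
    have hp' := h.down _ _ _ (x - 1) y z hp (by omega) (le_refl _) (le_refl _)
    obtain ⟨q1, q2, q3⟩ := h.inj _ _ _ _ _ _ h4 hp' (by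
      obtain ⟨g', rfl⟩ : ∃ g', a = g' + 1 := ⟨a - 1, by omega⟩
      obtain ⟨z', rfl⟩ : ∃ z', x = z' + 1 := ⟨x - 1, by omega⟩
      simp only [Nat.add_sub_cancel]
      push_cast at he ⊢
      linear_combination he)
    apply h3
    show P a b 0
    rw [q2, q3, show a = x by omega]
    exact hp

/-- window for central corners -/
lemma central_window (h : Tile P e1 e2 e3) {al be ga : ℕ} (hu : Full P al be ga) {a b c : ℕ}
    (hc : IsCor (fun x y => P x y 0) a b) (ha : al ≤ a) (hb : be ≤ b)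
    (he : (a : R) * e1 + (b : R) * e2 = (c : R) * e3) : ¬ P 0 0 (c + ga) := by
  intro hp
  have h0 := full_zero h hu
  have hq : P (a - al) (b - be) 0 :=
    h.down _ _ _ _ _ _ hc.2.2.2.1 (by have := hu.1; omega) (by omega) (le_refl _)
  obtain ⟨x, rfl⟩ : ∃ x, a = al + x := ⟨a - al, by omega⟩
  obtain ⟨y, rfl⟩ : ∃ y, b = be + y := ⟨b - be, by omega⟩
  simp only [Nat.add_sub_cancel_left] at hq
  have := h.inj _ _ _ _ _ _ hq hp (by
    push_cast at he h0 ⊢
    linear_combination he - h0)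
  have h3 := hu.2.2.1
  omega

/-- comparison of two central corners: the raw gap facts -/
lemma gap_raw (h : Tile P e1 e2 e3) {al be ga : ℕ} (hu : Full P al be ga) {a1 b1 a2 b2 : ℕ}
    (h1 : IsCor (fun x y => P x y 0) a1 b1) (h2 : IsCor (fun x y => P x y 0) a2 b2)
    (ha1 : al ≤ a1) (hb1 : be ≤ b1) (ha2 : al ≤ a2) (hb2 : be ≤ b2) (hlt : a1 < a2) :
    ∃ d, 0 < d ∧ d < ga ∧
      ((al < a2 - a1 ∧ ¬ P (a2 - a1) 0 d ∧ ¬ P 0 (be + (b1 - b2)) (ga - d)) ∨
       (be < b1 - b2 ∧ ¬ P 0 (b1 - b2) d ∧ ¬ P (al + (a2 - a1)) 0 (ga - d))) := by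
  have hbb : b2 < b1 := cor_anti h.d12 h1 h2 hlt
  have h0 := full_zero h hu
  obtain ⟨c1, p1, t1⟩ := cor_tail h h1
  obtain ⟨c2, p2, t2⟩ := cor_tail h h2
  have w1 := central_window h hu h1 ha1 hb1 t1
  have w2 := central_window h hu h2 ha2 hb2 t2
  have l1 : c1 < c2 + ga := by
    by_contra hcon
    exact w2 (h.down _ _ _ _ _ _ p1 (le_refl _) (le_refl _) (by omega))
  have l2 : c2 < c1 + ga := by
    by_contra hcon
    exact w1 (h.down _ _ _ _ _ _ p2 (le_refl _) (le_refl _) (by omega))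
  have px : P (a2 - a1) 0 0 :=
    h.down _ _ _ _ _ _ h2.2.2.2.1 (by have := h1.1; omega) (Nat.zero_le _) (le_refl _)
  have py : P 0 (b1 - b2) 0 :=
    h.down _ _ _ _ _ _ h1.2.2.2.2 (Nat.zero_le _) (by have := h2.2.1; omega) (le_refl _)
  have pu : P al be (ga - 1) := hu.2.2.2.2.2.2
  obtain ⟨p, hp⟩ : ∃ p, a2 = a1 + p := ⟨a2 - a1, by omega⟩
  obtain ⟨q, hq⟩ : ∃ q, b1 = b2 + q := ⟨b1 - b2, by omega⟩
  have hp' : a2 - a1 = p := by omega
  have hq' : b1 - b2 = q := by omega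
  rw [hp'] at px ⊢
  rw [hq'] at py ⊢
  have ppos : 0 < p := by omega
  have qpos : 0 < q := by omega
  have T1 : ((b2 + q : ℕ) : R) = (b2 : R) + (q : R) := by push_cast; ring
  have T2 : ((a1 + p : ℕ) : R) = (a1 : R) + (p : R) := by push_cast; ring
  rw [hq, T1] at t1
  rw [hp, T2] at t2
  rcases Nat.lt_trichotomy c1 c2 with hc | hc | hc
  · -- type b
    obtain ⟨d, hd⟩ : ∃ d, c2 = c1 + d := ⟨c2 - c1, by omega⟩
    have T3 : ((c1 + d : ℕ) : R) = (c1 : R) + (d : R) := by push_cast; ring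
    rw [hd, T3] at t2
    refine ⟨d, by omega, by omega, Or.inr ?_⟩
    have n1 : ¬ P 0 q d := by
      intro hcon
      have := h.inj _ _ _ _ _ _ hcon px (by
        push_cast
        linear_combination t1 - t2)
      omega
    have hbig : be < q := by
      by_contra hcon
      exact n1 (h.down _ _ _ _ _ _ pu (Nat.zero_le _) (by omega) (by omega))
    refine ⟨hbig, n1, ?_⟩
    intro hcon
    obtain ⟨q', hq'⟩ : ∃ q', q = be + q' := ⟨q - be, by omega⟩
    obtain ⟨g', hg'⟩ : ∃ g', ga = d + g' := ⟨ga - d, by omega⟩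
    have pz : P 0 q' 0 := h.down _ _ _ _ _ _ py (le_refl _) (by omega) (le_refl _)
    have hcon2 : P (al + p) 0 g' := by
      have : ga - d = g' := by omega
      rwa [this] at hcon
    have := h.inj _ _ _ _ _ _ hcon2 pz (by
      subst hq' hg'
      push_cast at t1 t2 h0 ⊢
      linear_combination h0 + t2 - t1)
    omega
  · exfalso
    have := h.inj _ _ _ _ _ _ px py (by
      rw [← hc] at t2
      push_cast
      linear_combination t2 - t1)
    omega
  · -- type a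
    obtain ⟨d, hd⟩ : ∃ d, c1 = c2 + d := ⟨c1 - c2, by omega⟩
    have T3 : ((c2 + d : ℕ) : R) = (c2 : R) + (d : R) := by push_cast; ring
    rw [hd, T3] at t1
    refine ⟨d, by omega, by omega, Or.inl ?_⟩
    have n1 : ¬ P p 0 d := by
      intro hcon
      have := h.inj _ _ _ _ _ _ hcon py (by
        push_cast
        linear_combination t2 - t1)
      omega
    have hbig : al < p := by
      by_contra hcon
      exact n1 (h.down _ _ _ _ _ _ pu (by omega) (Nat.zero_le _) (by omega))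
    refine ⟨hbig, n1, ?_⟩
    intro hcon
    obtain ⟨p', hp'⟩ : ∃ p', p = al + p' := ⟨p - al, by omega⟩
    obtain ⟨g', hg'⟩ : ∃ g', ga = d + g' := ⟨ga - d, by omega⟩
    have pz : P p' 0 0 := h.down _ _ _ _ _ _ px (by omega) (le_refl _) (le_refl _)
    have hcon2 : P 0 (be + q) g' := by
      have : ga - d = g' := by omega
      rwa [this] at hcon
    have := h.inj _ _ _ _ _ _ hcon2 pz (by
      subst hp' hg'
      push_cast at t1 t2 h0 ⊢
      linear_combination h0 + t1 - t2)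
    omega

/-- gap facts with counts -/
lemma gap (h : Tile P e1 e2 e3) {al be ga : ℕ} (hu : Full P al be ga) {a1 b1 a2 b2 : ℕ}
    (h1 : IsCor (fun x y => P x y 0) a1 b1) (h2 : IsCor (fun x y => P x y 0) a2 b2)
    (ha1 : al ≤ a1) (hb1 : be ≤ b1) (ha2 : al ≤ a2) (hb2 : be ≤ b2) (hlt : a1 < a2)
    (K13 K23 : Finset (ℕ × ℕ))
    (hK13 : ∀ p ∈ K13, IsCor (fun x y => P x 0 y) p.1 p.2 ∧ p.2 < ga)
    (hK23 : ∀ p ∈ K23, IsCor (fun x y => P 0 x y) p.1 p.2 ∧ p.2 < ga) :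
    (al + 1 ≤ a2 - a1 ∧ al + K13.card + K23.card + 2 ≤ (a2 - a1) + (b1 - b2) + ga) ∨
    (be + 1 ≤ b1 - b2 ∧ be + K13.card + K23.card + 2 ≤ (a2 - a1) + (b1 - b2) + ga) := by
  obtain ⟨d, hd0, hdg, hcase⟩ := gap_raw h hu h1 h2 ha1 hb1 ha2 hb2 hlt
  have hbb : b2 < b1 := cor_anti h.d12 h1 h2 hlt
  have m13 : ∀ p ∈ K13, IsCor (fun x y => P x 0 y) p.1 p.2 ∧ al < p.1 ∧ 0 < p.2 := by
    intro p hp
    obtain ⟨hc, hg⟩ := hK13 p hp
    refine ⟨hc, ?_, hc.2.1⟩
    by_contra hcon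
    exact hc.2.2.1 (h.down _ _ _ _ _ _ hu.2.2.2.2.2.2 (by omega) (Nat.zero_le _) (by omega))
  have m23 : ∀ p ∈ K23, IsCor (fun x y => P 0 x y) p.1 p.2 ∧ be < p.1 ∧ 0 < p.2 := by
    intro p hp
    obtain ⟨hc, hg⟩ := hK23 p hp
    refine ⟨hc, ?_, hc.2.1⟩
    by_contra hcon
    exact hc.2.2.1 (h.down _ _ _ _ _ _ hu.2.2.2.2.2.2 (Nat.zero_le _) (by omega) (by omega))
  rcases hcase with ⟨g1, g2, g3⟩ | ⟨g1, g2, g3⟩
  · left
    have c13 := count_bound h.d13 K13 al 0 m13 (a2 - a1) d g2 g1 hd0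
    have c23 := count_bound h.d23 K23 be 0 m23 (be + (b1 - b2)) (ga - d) g3 (by omega) (by omega)
    omega
  · right
    have c23 := count_bound h.d23 K23 be 0 m23 (b1 - b2) d g2 g1 hd0
    have c13 := count_bound h.d13 K13 al 0 m13 (al + (a2 - a1)) (ga - d) g3 (by omega) (by omega)
    omega

/-- existence of a low non-member in the 13-plane -/
lemma low_nonmember (h : Tile P e1 e2 e3) {al be ga : ℕ} (hu : Full P al be ga) {a1 b1 a2 b2 : ℕ}
    (h1 : IsCor (fun x y => P x y 0) a1 b1) (h2 : IsCor (fun x y => P x y 0) a2 b2)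
    (ha1 : al ≤ a1) (hb1 : be ≤ b1) (ha2 : al ≤ a2) (hb2 : be ≤ b2) (hlt : a1 < a2) :
    ∃ x z, z < ga ∧ x ≤ al + (a2 - a1) ∧ ¬ P x 0 z := by
  obtain ⟨d, hd0, hdg, hcase⟩ := gap_raw h hu h1 h2 ha1 hb1 ha2 hb2 hlt
  rcases hcase with ⟨g1, g2, g3⟩ | ⟨g1, g2, g3⟩
  · exact ⟨_, d, hdg, by omega, g2⟩
  · exact ⟨_, ga - d, by omega, by omega, g3⟩

/-- two planes cannot both have two central corners -/
lemma struct_half (h : Tile P e1 e2 e3) {al be ga : ℕ} (hu : Full P al be ga)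
    {a1 b1 a2 b2 x1 z1 x2 z2 : ℕ}
    (h1 : IsCor (fun x y => P x y 0) a1 b1) (h2 : IsCor (fun x y => P x y 0) a2 b2)
    (ha1 : al ≤ a1) (hb1 : be ≤ b1) (ha2 : al ≤ a2) (hb2 : be ≤ b2) (hlt : a1 < a2)
    (k2 : IsCor (fun x y => P x 0 y) x2 z2)
    (hx1 : al ≤ x1) (hz2 : ga ≤ z2) (hlt' : x1 < x2) :
    x2 - x1 < a2 - a1 := by
  obtain ⟨x, z, hz, hx, hn⟩ := low_nonmember h hu h1 h2 ha1 hb1 ha2 hb2 hlt
  have : x2 < x := by
    by_contra hcon
    exact hn (h.down _ _ _ _ _ _ k2.2.2.2.2 (by omega) (le_refl _) (by omega))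
  omega

lemma struct13 (h : Tile P e1 e2 e3) {al be ga : ℕ} (hu : Full P al be ga)
    {a1 b1 a2 b2 x1 z1 x2 z2 : ℕ}
    (h1 : IsCor (fun x y => P x y 0) a1 b1) (h2 : IsCor (fun x y => P x y 0) a2 b2)
    (ha1 : al ≤ a1) (hb1 : be ≤ b1) (ha2 : al ≤ a2) (hb2 : be ≤ b2) (hlt : a1 < a2)
    (k1 : IsCor (fun x y => P x 0 y) x1 z1) (k2 : IsCor (fun x y => P x 0 y) x2 z2)
    (hx1 : al ≤ x1) (hz1 : ga ≤ z1) (hx2 : al ≤ x2) (hz2 : ga ≤ z2) (hlt' : x1 < x2) :
    False := by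
  have A := struct_half h hu (z1 := z1) h1 h2 ha1 hb1 ha2 hb2 hlt k2 hx1 hz2 hlt'
  have B := struct_half h.swap23 hu.swap23 (z1 := b1) k1 k2 hx1 hz1 hx2 hz2 hlt' h2 ha1 hb2 hlt
  omega

lemma rect_inj (h : Tile P e1 e2 e3) {al be ga : ℕ} (hu : Full P al be ga) (A : ℕ)
    (hA : ∀ k, P k 0 0 ↔ k < A) {x z x' z' : ℕ} (hx' : x' < A) (hz : z ≤ ga) (hz' : z' ≤ ga)
    (hxx : x ≤ x')
    (he : (x : R) * e1 + (z : R) * e3 = (x' : R) * e1 + (z' : R) * e3) : x = x' ∧ z = z' := by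
  have h0 := full_zero h hu
  obtain ⟨i, rfl⟩ : ∃ i, x' = x + i := ⟨x' - x, by omega⟩
  have pi : P i 0 0 := (hA i).2 (by omega)
  rcases Nat.lt_or_ge z' z with hzz | hzz
  · exfalso
    obtain ⟨l, rfl⟩ : ∃ l, z = z' + l := ⟨z - z', by omega⟩
    have pl : P 0 0 l := h.down _ _ _ _ _ _ hu.2.2.2.2.1 (Nat.zero_le _) (Nat.zero_le _) (by omega)
    have := h.inj _ _ _ _ _ _ pi pl (by
      push_cast at he ⊢
      linear_combination -he)
    omega
  · obtain ⟨l, rfl⟩ : ∃ l, z' = z + l := ⟨z' - z, by omega⟩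
    rcases Nat.eq_zero_or_pos l with hl | hl
    · subst hl
      have := h.inj _ _ _ _ _ _ pi h.zero (by
        push_cast at he ⊢
        linear_combination -he)
      omega
    · exfalso
      obtain ⟨g, hg⟩ : ∃ g, ga = l + g := ⟨ga - l, by omega⟩
      have pg : P al be g := h.down _ _ _ _ _ _ hu.2.2.2.2.2.2 (le_refl _) (le_refl _) (by omega)
      have := h.inj _ _ _ _ _ _ pi pg (by
        subst hg
        push_cast at he h0 ⊢
        linear_combination -he - h0)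
      have := hu.2.1
      omega

lemma rect_bound (h : Tile P e1 e2 e3) {al be ga : ℕ} (hu : Full P al be ga)
    (T : Finset (ℕ × ℕ × ℕ)) (hT : ∀ x y z, (x, y, z) ∈ T ↔ P x y z) (A : ℕ)
    (hA : ∀ k, P k 0 0 ↔ k < A) : A * (ga + 1) ≤ T.card := by
  classical
  choose f g k hf using h.surj
  have hle : ((Finset.range A) ×ˢ (Finset.range (ga + 1))).card ≤ T.card := by
    refine Finset.card_le_card_of_injOn (fun p => (f p.1 0 p.2, g p.1 0 p.2, k p.1 0 p.2)) ?_ ?_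
    · intro p _
      simp only [Finset.mem_coe]
      rw [hT]
      exact (hf p.1 0 p.2).1
    · rintro ⟨x, z⟩ hp ⟨x', z'⟩ hp' he
      simp only [Finset.coe_product, Finset.coe_range, Set.mem_prod, Set.mem_Iio] at hp hp'
      simp only [Prod.mk.injEq] at he
      have e1' := (hf x 0 z).2
      have e2' := (hf x' 0 z').2
      rw [he.1, he.2.1, he.2.2, ← e2'] at e1'
      rcases le_total x x' with hxx | hxx
      · have := rect_inj (x := x) (z := z) (x' := x') (z' := z') h hu A hA hp'.1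
          (by omega) (by omega) hxx (by
          push_cast at e1'
          linear_combination e1')
        simp [this.1, this.2]
      · have := rect_inj (x := x') (z := z') (x' := x) (z' := z) h hu A hA hp.1
          (by omega) (by omega) hxx (by
          push_cast at e1'
          linear_combination -e1')
        simp [this.1, this.2]
  rw [Finset.card_product, Finset.card_range, Finset.card_range] at hle
  exact hle

end tile

/-! planar areas -/

def tri (N : ℕ) : Finset (ℕ × ℕ) :=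
  (Finset.Icc 1 N ×ˢ Finset.Icc 1 N).filter (fun t => t.1 + t.2 ≤ N)

lemma mem_tri (N : ℕ) (t : ℕ × ℕ) : t ∈ tri N ↔ 1 ≤ t.1 ∧ 1 ≤ t.2 ∧ t.1 + t.2 ≤ N := by
  simp only [tri, Finset.mem_filter, Finset.mem_product, Finset.mem_Icc]
  omega

lemma card_tri (N : ℕ) : 2 * (tri N).card = N * (N - 1) := by
  induction N with
  | zero => simp [tri]
  | succ N ih =>
    have h : tri (N + 1) = tri N ∪ (Finset.Icc 1 N).image (fun x => (x, N + 1 - x)) := by
      ext ⟨x, y⟩
      simp only [Finset.mem_union, mem_tri, Finset.mem_image, Finset.mem_Icc, Prod.mk.injEq]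
      constructor
      · intro h
        by_cases h2 : x + y ≤ N
        · left; omega
        · right; exact ⟨x, by omega, rfl, by omega⟩
      · rintro (h | ⟨a, ha, rfl, rfl⟩) <;> omega
    have hd : Disjoint (tri N) ((Finset.Icc 1 N).image (fun x => (x, N + 1 - x))) := by
      rw [Finset.disjoint_left]
      rintro ⟨x, y⟩ h1 h2
      simp only [mem_tri, Finset.mem_image, Finset.mem_Icc, Prod.mk.injEq] at h1 h2
      obtain ⟨a, ha, rfl, rfl⟩ := h2
      omega
    rw [h, Finset.card_union_of_disjoint hd, Finset.card_image_of_injective _ (by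
      intro a b hab
      simp only [Prod.mk.injEq] at hab
      exact hab.1), Nat.card_Icc, Nat.mul_add, ih]
    rcases N with _ | N
    · simp
    · simp only [Nat.add_sub_cancel]
      ring

lemma card_low1 {Q : ℕ → ℕ → Prop} (hQ : Down2 Q) (D : Finset (ℕ × ℕ)) (t : ℕ)
    (hD : ∀ p ∈ D, IsCor Q p.1 p.2 ∧ p.1 < t) : D.card ≤ t - 1 := by
  have h : D.card ≤ (Finset.Ioo 0 t).card := by
    refine Finset.card_le_card_of_injOn (fun p => p.1) ?_ ?_
    · intro p hp
      have := hD p (by simpa using hp)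
      simp only [Finset.coe_Ioo, Set.mem_Ioo]
      exact ⟨this.1.1, this.2⟩
    · intro p hp p' hp' hpp
      exact Prod.ext hpp (cor_eq1 hQ (hD p (by simpa using hp)).1
        (hD p' (by simpa using hp')).1 hpp)
  rw [Nat.card_Ioo] at h
  omega

lemma card_low2 {Q : ℕ → ℕ → Prop} (hQ : Down2 Q) (D : Finset (ℕ × ℕ)) (t : ℕ)
    (hD : ∀ p ∈ D, IsCor Q p.1 p.2 ∧ p.2 < t) : D.card ≤ t - 1 := by
  have h : D.card ≤ (Finset.Ioo 0 t).card := by
    refine Finset.card_le_card_of_injOn (fun p => p.2) ?_ ?_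
    · intro p hp
      have := hD p (by simpa using hp)
      simp only [Finset.coe_Ioo, Set.mem_Ioo]
      exact ⟨this.1.2.1, this.2⟩
    · intro p hp p' hp' hpp
      refine Prod.ext ?_ hpp
      exact cor_eq1 (Q := fun x y => Q y x) (fun x y x' y' h a b => hQ _ _ _ _ h b a)
        (hD p (by simpa using hp)).1.swap (hD p' (by simpa using hp')).1.swap hpp
  rw [Nat.card_Ioo] at h
  omega

lemma area_base {Q : ℕ → ℕ → Prop} (hQ : Down2 Q) {al be : ℕ} (hq : Q al be)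
    (F L K : Finset (ℕ × ℕ)) (hF : ∀ x y, 0 < x → 0 < y → Q x y → (x, y) ∈ F)
    (hL : ∀ p ∈ L, IsCor Q p.1 p.2 ∧ p.1 < al) (hK : ∀ p ∈ K, IsCor Q p.1 p.2 ∧ p.2 < be) :
    al * be + (tri L.card).card + (tri K.card).card ≤ F.card := by
  have kb := card_low2 hQ K be hK
  have hsub : ((Finset.Icc 1 al ×ˢ Finset.Icc 1 be) ∪
      (tri L.card).image (fun t => (t.1, be + t.2))) ∪
      (tri K.card).image (fun t => (al + t.1, t.2)) ⊆ F := by
    intro p hp
    simp only [Finset.mem_union, Finset.mem_product, Finset.mem_Icc, Finset.mem_image,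
      mem_tri] at hp
    rcases hp with (hp | ⟨t, ht, rfl⟩) | ⟨t, ht, rfl⟩
    · exact hF _ _ (by omega) (by omega) (hQ _ _ _ _ hq (by omega) (by omega))
    · refine hF _ _ (by omega) (by omega) ?_
      by_contra hcon
      have := count_bound hQ L 0 be (fun p hp => by
        obtain ⟨hc, hlt⟩ := hL p hp
        refine ⟨hc, hc.1, ?_⟩
        by_contra hcon2
        exact hc.2.2.1 (hQ _ _ _ _ hq (by omega) (by omega))) _ _ hcon (by omega) (by omega)
      omega
    · refine hF _ _ (by omega) (by omega) ?_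
      by_contra hcon
      have := count_bound hQ K al 0 (fun p hp => by
        obtain ⟨hc, hlt⟩ := hK p hp
        refine ⟨hc, ?_, hc.2.1⟩
        by_contra hcon2
        exact hc.2.2.1 (hQ _ _ _ _ hq (by omega) (by omega))) _ _ hcon (by omega) (by omega)
      omega
  have hcard := Finset.card_le_card hsub
  rw [Finset.card_union_of_disjoint, Finset.card_union_of_disjoint, Finset.card_product,
    Nat.card_Icc, Nat.card_Icc, Finset.card_image_of_injective, Finset.card_image_of_injective]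
    at hcard
  · simpa using hcard
  · rintro ⟨a, b⟩ ⟨c, d⟩ hab
    simp only [Prod.mk.injEq] at hab
    exact Prod.ext (by simpa using hab.1) (by simpa using hab.2)
  · rintro ⟨a, b⟩ ⟨c, d⟩ hab
    simp only [Prod.mk.injEq] at hab
    exact Prod.ext (by simpa using hab.1) (by simpa using hab.2)
  · rw [Finset.disjoint_left]
    rintro ⟨x, y⟩ h1 h2
    simp only [Finset.mem_product, Finset.mem_Icc, Finset.mem_image, mem_tri,
      Prod.mk.injEq] at h1 h2
    obtain ⟨t, ht, h3, h4⟩ := h2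
    omega
  · rw [Finset.disjoint_left]
    rintro ⟨x, y⟩ h1 h2
    simp only [Finset.mem_union, Finset.mem_product, Finset.mem_Icc, Finset.mem_image, mem_tri,
      Prod.mk.injEq] at h1 h2
    obtain ⟨t, ht, h3, h4⟩ := h2
    rcases h1 with h1 | ⟨t', ht', h5, h6⟩ <;> omega

lemma mono_le (a : ℕ → ℕ) (n : ℕ) (hlt : ∀ i, i < n → a i < a (i + 1)) :
    ∀ j i, i ≤ j → j ≤ n → a i ≤ a j := by
  intro j
  induction j with
  | zero =>
    intro i hi _
    have : i = 0 := by omega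
    subst this
    exact le_refl _
  | succ j ih =>
    intro i hi hj
    rcases Nat.eq_or_lt_of_le hi with h | h
    · subst h; exact le_refl _
    · have := ih i (by omega) (by omega)
      have := hlt j (by omega)
      omega

lemma area_seq {Q : ℕ → ℕ → Prop} (hQ : Down2 Q) (n : ℕ) (a b : ℕ → ℕ)
    (hcor : ∀ i, i ≤ n → IsCor Q (a i) (b i)) (hlt : ∀ i, i < n → a i < a (i + 1))
    (hcons : ∀ i, i < n → ∀ x y, IsCor Q x y → a i < x → x < a (i + 1) → False)
    (F L K : Finset (ℕ × ℕ)) (hF : ∀ x y, 0 < x → 0 < y → Q x y → (x, y) ∈ F)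
    (hL : ∀ p ∈ L, IsCor Q p.1 p.2 ∧ p.1 < a 0) (hK : ∀ p ∈ K, IsCor Q p.1 p.2 ∧ a n < p.1) :
    (a 0 - 1) * b 0 + (tri L.card).card + (tri K.card).card +
      ∑ i ∈ Finset.range n, (a (i + 1) - a i) * (b i - 1) ≤ F.card := by
  have mono := mono_le a n hlt
  have lb := card_low1 hQ L (a 0) hL
  have hcard : (((Finset.Icc 1 (a 0 - 1) ×ˢ Finset.Icc 1 (b 0)) ∪
      (tri L.card).image (fun t => (t.1, b 0 + t.2))) ∪
      (tri K.card).image (fun t => (a n + t.1, t.2))) ∪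
      (Finset.range n).biUnion (fun i => Finset.Ico (a i) (a (i + 1)) ×ˢ Finset.Icc 1 (b i - 1))
      ⊆ F := by
    intro p hp
    simp only [Finset.mem_union, Finset.mem_product, Finset.mem_Icc, Finset.mem_image,
      mem_tri, Finset.mem_biUnion, Finset.mem_range, Finset.mem_Ico] at hp
    rcases hp with ((hp | ⟨t, ht, rfl⟩) | ⟨t, ht, rfl⟩) | ⟨i, hi, hp⟩
    · exact hF _ _ (by omega) (by omega)
        (hQ _ _ _ _ (hcor 0 (Nat.zero_le _)).2.2.2.1 (by omega) (by omega))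
    · refine hF _ _ (by omega) (by omega) ?_
      by_contra hcon
      have := count_bound hQ L 0 (b 0) (fun p hp => by
        obtain ⟨hc, hl⟩ := hL p hp
        exact ⟨hc, hc.1, cor_anti hQ hc (hcor 0 (Nat.zero_le _)) hl⟩) _ _ hcon
        (by omega) (by omega)
      omega
    · refine hF _ _ (by omega) (by omega) ?_
      by_contra hcon
      have := count_bound hQ K (a n) 0 (fun p hp => by
        obtain ⟨hc, hl⟩ := hK p hp
        exact ⟨hc, hl, hc.2.1⟩) _ _ hcon (by omega) (by omega)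
      omega
    · have c0 := hcor i (by omega)
      have c1 := hcor (i + 1) (by omega)
      refine hF _ _ (by have := c0.1; omega) (by omega) ?_
      by_contra hcon
      obtain ⟨u, v, hu, hv, hc⟩ := exists_cor hQ _ _ _ rfl hcon
        (hQ _ _ _ _ c1.2.2.2.1 (by omega) (Nat.zero_le _))
        (hQ _ _ _ _ c0.2.2.2.2 (Nat.zero_le _) (by omega))
      rcases Nat.lt_trichotomy u (a i) with h1 | h1 | h1
      · have := cor_anti hQ hc c0 h1
        omega
      · have := cor_eq1 hQ hc c0 h1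
        have := c0.2.1
        omega
      · exact hcons i hi u v hc h1 (by omega)
  have hc := Finset.card_le_card hcard
  rw [Finset.card_union_of_disjoint, Finset.card_union_of_disjoint,
    Finset.card_union_of_disjoint, Finset.card_product, Finset.card_biUnion,
    Nat.card_Icc, Nat.card_Icc, Finset.card_image_of_injective, Finset.card_image_of_injective]
    at hc
  · simpa [Finset.card_product, Nat.card_Ico, Nat.card_Icc] using hc
  · rintro ⟨a, b⟩ ⟨c, d⟩ hab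
    simp only [Prod.mk.injEq] at hab
    exact Prod.ext (by simpa using hab.1) (by simpa using hab.2)
  · rintro ⟨a, b⟩ ⟨c, d⟩ hab
    simp only [Prod.mk.injEq] at hab
    exact Prod.ext (by simpa using hab.1) (by simpa using hab.2)
  · intro i hi j hj hij
    rw [Function.onFun, Finset.disjoint_left]
    rintro ⟨x, y⟩ h1 h2
    simp only [Finset.mem_product, Finset.mem_Ico] at h1 h2
    rw [Finset.mem_coe, Finset.mem_range] at hi hj
    rcases Nat.lt_or_gt_of_ne hij with h | h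
    · have := mono j (i + 1) (by omega) (by omega)
      omega
    · have := mono i (j + 1) (by omega) (by omega)
      omega
  · rw [Finset.disjoint_left]
    rintro ⟨x, y⟩ h1 h2
    simp only [Finset.mem_product, Finset.mem_Icc, Finset.mem_image, mem_tri,
      Prod.mk.injEq] at h1 h2
    obtain ⟨t, ht, h3, h4⟩ := h2
    omega
  · rw [Finset.disjoint_left]
    rintro ⟨x, y⟩ h1 h2
    simp only [Finset.mem_union, Finset.mem_product, Finset.mem_Icc, Finset.mem_image, mem_tri,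
      Prod.mk.injEq] at h1 h2
    obtain ⟨t, ht, h3, h4⟩ := h2
    have := mono n 0 (Nat.zero_le _) (le_refl _)
    rcases h1 with h1 | ⟨t', ht', h5, h6⟩ <;> omega
  · rw [Finset.disjoint_left]
    rintro ⟨x, y⟩ h1 h2
    simp only [Finset.mem_union, Finset.mem_product, Finset.mem_Icc, Finset.mem_image, mem_tri,
      Prod.mk.injEq, Finset.mem_biUnion, Finset.mem_range, Finset.mem_Ico] at h1 h2
    obtain ⟨i, hi, h3⟩ := h2
    have m1 := mono i 0 (Nat.zero_le _) (by omega)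
    have m2 := mono n (i + 1) (by omega) (le_refl _)
    rcases h1 with (h1 | ⟨t', ht', h5, h6⟩) | ⟨t', ht', h5, h6⟩ <;> omega

lemma seq_ineq (a b : ℕ → ℤ) (al be Z : ℤ) (hal : 1 ≤ al) (hbe : 1 ≤ be) (n : ℕ)
    (hgap : ∀ i, i < n →
      (al + 1 ≤ a (i + 1) - a i ∧ 1 ≤ b i - b (i + 1) ∧
        al + Z ≤ (a (i + 1) - a i) + (b i - b (i + 1))) ∨
      (1 ≤ a (i + 1) - a i ∧ be + 1 ≤ b i - b (i + 1) ∧
        be + Z ≤ (a (i + 1) - a i) + (b i - b (i + 1)))) :
    ∃ na nb : ℤ, 0 ≤ na ∧ 0 ≤ nb ∧ na + nb = n ∧ n + na ≤ a n - a 0 ∧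
      2 * n * (n - 1) + 2 * na * (na - 1) + 2 * nb * (nb - 1)
        + 4 * n * (2 * (al - 1) + 2 * (be - 1) + Z) ≤
      4 * ((∑ i ∈ Finset.range n, (a (i + 1) - a i) * (b i - 1)) - (a n - a 0) * (b n - 1)
        + (al - 1) * (b 0 - b n) + (be - 1) * (a n - a 0)) := by
  induction n with
  | zero => exact ⟨0, 0, by simp⟩
  | succ n ih =>
    obtain ⟨na, nb, h1, h2, h3, h4, h5⟩ := ih (fun i hi => hgap i (by omega))
    rw [Finset.sum_range_succ]
    obtain ⟨S, hS⟩ : ∃ S, S = ∑ i ∈ Finset.range n, (a (i + 1) - a i) * (b i - 1) := ⟨_, rfl⟩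
    rw [← hS] at h5 ⊢
    obtain ⟨p, hp⟩ : ∃ p, p = a (n + 1) - a n := ⟨_, rfl⟩
    obtain ⟨q, hq⟩ : ∃ q, q = b n - b (n + 1) := ⟨_, rfl⟩
    obtain ⟨D, hD⟩ : ∃ D, D = a n - a 0 := ⟨_, rfl⟩
    have e1 : a (n + 1) - a 0 = D + p := by omega
    have e2 : b (n + 1) = b n - q := by omega
    have e3 : b 0 - b (n + 1) = (b 0 - b n) + q := by omega
    have key : S + (a (n + 1) - a n) * (b n - 1) - (a (n + 1) - a 0) * (b (n + 1) - 1)
        + (al - 1) * (b 0 - b (n + 1)) + (be - 1) * (a (n + 1) - a 0)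
        = (S - (a n - a 0) * (b n - 1) + (al - 1) * (b 0 - b n) + (be - 1) * (a n - a 0))
          + ((D + p) * q + (al - 1) * q + (be - 1) * p) := by
      rw [e1, e3, e2, ← hp, ← hD]
      ring
    rw [key]
    rw [← hD] at h4
    have hg := hgap n (by omega)
    rw [← hp, ← hq] at hg
    have hn0 : (0 : ℤ) ≤ n := by positivity
    rcases hg with ⟨g1, g2, g3⟩ | ⟨g1, g2, g3⟩
    · refine ⟨na + 1, nb, by omega, h2, by push_cast; omega, by push_cast; omega, ?_⟩
      have f1 : 0 ≤ (D - (n + na)) * q := mul_nonneg (by omega) (by omega)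
      have f2 : 0 ≤ (n + na) * (q - 1) := mul_nonneg (by omega) (by omega)
      have f3 : 0 ≤ (p - 1) * (q - 1) := mul_nonneg (by omega) (by omega)
      have f4 : 0 ≤ (al - 1) * (q - 1) := mul_nonneg (by omega) (by omega)
      have f5 : 0 ≤ (be - 1) * (p - 2) := mul_nonneg (by omega) (by omega)
      push_cast
      nlinarith
    · refine ⟨na, nb + 1, h1, by omega, by push_cast; omega, by push_cast; omega, ?_⟩
      have f1 : 0 ≤ (D - (n + na)) * q := mul_nonneg (by omega) (by omega)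
      have f2 : 0 ≤ (n + na) * (q - 2) := mul_nonneg (by omega) (by omega)
      have f3 : 0 ≤ (p - 1) * (q - 1) := mul_nonneg (by omega) (by omega)
      have f4 : 0 ≤ (al - 1) * (q - 2) := mul_nonneg (by omega) (by omega)
      have f5 : 0 ≤ (be - 1) * (p - 1) := mul_nonneg (by omega) (by omega)
      push_cast
      nlinarith

/-! area of a plane with at least two central corners -/

section areak

variable {R : Type*} [CommRing R] {P : ℕ → ℕ → ℕ → Prop} {e1 e2 e3 : R}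

lemma area_k (h : Tile P e1 e2 e3) {al be ga : ℕ} (hu : Full P al be ga)
    (K12 K13 K23 : Finset (ℕ × ℕ))
    (hK12 : ∀ a b, (a, b) ∈ K12 ↔ IsCor (fun x y => P x y 0) a b)
    (hK13 : ∀ a b, (a, b) ∈ K13 ↔ IsCor (fun x y => P x 0 y) a b)
    (hK23 : ∀ a b, (a, b) ∈ K23 ↔ IsCor (fun x y => P 0 x y) a b)
    (F : Finset (ℕ × ℕ)) (hF : ∀ x y, 0 < x → 0 < y → P x y 0 → (x, y) ∈ F) (n : ℕ)
    (hn : (K12.filter (fun p => al ≤ p.1 ∧ be ≤ p.2)).card = n + 1) :
    4 * (al : ℤ) * be - 4 * be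
      + 4 * ((tri (K12.filter (fun p => p.1 < al)).card).card : ℤ)
      + 4 * ((tri (K12.filter (fun p => p.2 < be)).card).card : ℤ)
      + 3 * n * n - 4 * n
      + 4 * n * (2 * (al - 1) + 2 * (be - 1)
        + ((K13.filter (fun p => p.2 < ga)).card + (K23.filter (fun p => p.2 < ga)).card
          + 2 - (ga : ℤ))) ≤ 4 * (F.card : ℤ) := by
  obtain ⟨K0, hK0⟩ : ∃ K0, K0 = K12.filter (fun p => al ≤ p.1 ∧ be ≤ p.2) := ⟨_, rfl⟩
  rw [← hK0] at hn
  have memK0 : ∀ a b, (a, b) ∈ K0 ↔ (IsCor (fun x y => P x y 0) a b ∧ al ≤ a ∧ be ≤ b) := by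
    intro a b
    rw [hK0, Finset.mem_filter, hK12]
  have hA : (K0.image Prod.fst).card = n + 1 := by
    rw [Finset.card_image_of_injOn, hn]
    rintro ⟨x, y⟩ hp ⟨x', y'⟩ hp' hpp
    simp only [Finset.mem_coe, memK0] at hp hp'
    simp only at hpp
    exact Prod.ext hpp (cor_eq1 h.d12 hp.1 hp'.1 hpp)
  have haux : ∀ i, ∃ b, (((K0.image Prod.fst).orderEmbOfFin hA) ⟨min i n, by omega⟩, b) ∈ K0 := by
    intro i
    have := Finset.orderEmbOfFin_mem (K0.image Prod.fst) hA ⟨min i n, by omega⟩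
    rw [Finset.mem_image] at this
    obtain ⟨⟨x, y⟩, h1, h2⟩ := this
    refine ⟨y, ?_⟩
    rw [← h2]
    exact h1
  choose b hb using haux
  obtain ⟨a, ha⟩ : ∃ a : ℕ → ℕ, ∀ i, a i =
      ((K0.image Prod.fst).orderEmbOfFin hA) ⟨min i n, by omega⟩ :=
    ⟨fun i => ((K0.image Prod.fst).orderEmbOfFin hA) ⟨min i n, by omega⟩, fun _ => rfl⟩
  have hb' : ∀ i, (IsCor (fun x y => P x y 0) (a i) (b i) ∧ al ≤ a i ∧ be ≤ b i) := by
    intro i
    rw [← memK0, ha i]
    exact hb i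
  have hlt : ∀ i, i < n → a i < a (i + 1) := by
    intro i hi
    rw [ha i, ha (i + 1)]
    apply ((K0.image Prod.fst).orderEmbOfFin hA).strictMono
    rw [Fin.lt_def]
    simp only
    omega
  have hcons : ∀ i, i < n → ∀ x y, IsCor (fun x y => P x y 0) x y → a i < x → x < a (i + 1) →
      False := by
    intro i hi x y hc h1 h2
    have hy := cor_anti h.d12 hc (hb' (i + 1)).1 h2
    have hx : (x, y) ∈ K0 := by
      rw [memK0]
      have := (hb' i).2.1
      have := (hb' (i + 1)).2.2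
      exact ⟨hc, by omega, by omega⟩
    have hx' : x ∈ K0.image Prod.fst := Finset.mem_image.2 ⟨(x, y), hx, rfl⟩
    have hr := Finset.range_orderEmbOfFin (K0.image Prod.fst) hA
    have hx'' : x ∈ Set.range ((K0.image Prod.fst).orderEmbOfFin hA) := by
      rw [hr]
      exact hx'
    obtain ⟨j, hj⟩ := hx''
    rw [ha i, ← hj] at h1
    rw [ha (i + 1), ← hj] at h2
    have h1' := ((K0.image Prod.fst).orderEmbOfFin hA).lt_iff_lt.1 h1
    have h2' := ((K0.image Prod.fst).orderEmbOfFin hA).lt_iff_lt.1 h2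
    rw [Fin.lt_def] at h1' h2'
    simp only at h1' h2'
    omega
  have area := area_seq h.d12 n a b (fun i _ => (hb' i).1) hlt hcons F
    (K12.filter (fun p => p.1 < al)) (K12.filter (fun p => p.2 < be)) hF
    (by
      rintro ⟨x, y⟩ hp
      rw [Finset.mem_filter, hK12] at hp
      have := (hb' 0).2.1
      exact ⟨hp.1, by have := hp.2; simp only at this ⊢; omega⟩)
    (by
      rintro ⟨x, y⟩ hp
      rw [Finset.mem_filter, hK12] at hp
      have h2 := (hb' n).2.2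
      exact ⟨hp.1, cor_anti' h.d12 (hb' n).1 hp.1 (by have := hp.2; simp only at this ⊢; omega)⟩)
  have hm13 : ∀ p ∈ K13.filter (fun p => p.2 < ga),
      IsCor (fun x y => P x 0 y) p.1 p.2 ∧ p.2 < ga := by
    rintro ⟨x, y⟩ hp
    rw [Finset.mem_filter, hK13] at hp
    exact hp
  have hm23 : ∀ p ∈ K23.filter (fun p => p.2 < ga),
      IsCor (fun x y => P 0 x y) p.1 p.2 ∧ p.2 < ga := by
    rintro ⟨x, y⟩ hp
    rw [Finset.mem_filter, hK23] at hp
    exact hp
  obtain ⟨m13, hm13'⟩ : ∃ m, m = (K13.filter (fun p => p.2 < ga)).card := ⟨_, rfl⟩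
  obtain ⟨m23, hm23'⟩ : ∃ m, m = (K23.filter (fun p => p.2 < ga)).card := ⟨_, rfl⟩
  have hseq := seq_ineq (fun i => (a i : ℤ)) (fun i => (b i : ℤ)) al be
    (m13 + m23 + 2 - (ga : ℤ)) (by have := hu.1; omega) (by have := hu.2.1; omega) n (by
      intro i hi
      have g := gap h hu (hb' i).1 (hb' (i + 1)).1 (hb' i).2.1 (hb' i).2.2 (hb' (i + 1)).2.1
        (hb' (i + 1)).2.2 (hlt i hi) _ _ hm13 hm23
      rw [← hm13', ← hm23'] at g
      have l1 := hlt i hi
      have l2 := cor_anti h.d12 (hb' i).1 (hb' (i + 1)).1 l1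
      omega)
  rw [← hm13', ← hm23']
  obtain ⟨na, nb, q1, q2, q3, q4, q5⟩ := hseq
  have hmono := mono_le a n hlt n 0 (Nat.zero_le _) (le_refl _)
  have a0 := (hb' 0).2.1
  have b0 := (hb' 0).2.2
  have bn := (hb' n).2.2
  have a0p := (hb' 0).1.1
  have hsum : ((∑ i ∈ Finset.range n, (a (i + 1) - a i) * (b i - 1) : ℕ) : ℤ)
      = ∑ i ∈ Finset.range n, ((a (i + 1) : ℤ) - a i) * ((b i : ℤ) - 1) := by
    push_cast
    apply Finset.sum_congr rfl
    intro i hi
    rw [Finset.mem_range] at hi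
    have l1 := hlt i hi
    have l2 := (hb' i).1.2.1
    rw [Nat.cast_sub (by omega), Nat.cast_sub (by omega)]
    simp
  have area' : ((a 0 : ℤ) - 1) * b 0 + (tri (K12.filter (fun p => p.1 < al)).card).card
      + (tri (K12.filter (fun p => p.2 < be)).card).card
      + ∑ i ∈ Finset.range n, ((a (i + 1) : ℤ) - a i) * ((b i : ℤ) - 1) ≤ F.card := by
    rw [← hsum]
    have : ((a 0 : ℤ) - 1) = ((a 0 - 1 : ℕ) : ℤ) := by
      rw [Nat.cast_sub (by omega)]
      simp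
    rw [this]
    exact_mod_cast area
  have f1 : 0 ≤ ((a 0 : ℤ) - al) * b 0 := mul_nonneg (by omega) (by omega)
  have f2 : 0 ≤ ((al : ℤ) - 1) * (b n - be) := by
    have := hu.1
    exact mul_nonneg (by omega) (by omega)
  have f3 : 0 ≤ ((a n : ℤ) - a 0) * (b n - be) := mul_nonneg (by omega) (by omega)
  have f4 : 0 ≤ (na - nb) * (na - nb) := mul_self_nonneg _
  have f5 : (n : ℤ) * n = (na + nb) * (na + nb) := by rw [q3]
  nlinarith

end areak

/-! counting triples by support -/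

def lab (t : ℕ × ℕ × ℕ) : Bool × Bool × Bool :=
  (decide (0 < t.1), decide (0 < t.2.1), decide (0 < t.2.2))

lemma lab_iff (t : ℕ × ℕ × ℕ) (a b c : Bool) :
    lab t = (a, b, c) ↔
      ((0 < t.1 ↔ a = true) ∧ (0 < t.2.1 ↔ b = true) ∧ (0 < t.2.2 ↔ c = true)) := by
  unfold lab
  cases a <;> cases b <;> cases c <;> simp

def num (S : Finset (ℕ × ℕ × ℕ)) (a b c : Bool) : ℕ :=
  (S.filter (fun u => lab u = (a, b, c))).card

lemma card_eq_num (S : Finset (ℕ × ℕ × ℕ)) :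
    S.card = num S true true true + num S true true false + num S true false true
      + num S true false false + num S false true true + num S false true false
      + num S false false true + num S false false false := by
  have h := Finset.card_eq_sum_card_fiberwise (f := lab) (s := S)
    (t := (Finset.univ : Finset (Bool × Bool × Bool))) (by intro x _; simp)
  rw [h]
  simp only [Fintype.sum_prod_type, Fintype.sum_bool, num]
  ring

lemma total (P : ℕ → ℕ → ℕ → Prop) (h0 : P 0 0 0) (T : Finset (ℕ × ℕ × ℕ))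
    (hT : ∀ x y z, (x, y, z) ∈ T ↔ P x y z) (A1 A2 A3 : ℕ)
    (hA1 : ∀ k, P k 0 0 ↔ k < A1) (hA2 : ∀ k, P 0 k 0 ↔ k < A2) (hA3 : ∀ k, P 0 0 k ↔ k < A3) :
    ∃ F12 F13 F23 : Finset (ℕ × ℕ), ∃ I : Finset (ℕ × ℕ × ℕ),
      (∀ x y, 0 < x → 0 < y → P x y 0 → (x, y) ∈ F12) ∧
      (∀ x y, 0 < x → 0 < y → P x 0 y → (x, y) ∈ F13) ∧
      (∀ x y, 0 < x → 0 < y → P 0 x y → (x, y) ∈ F23) ∧
      (∀ x y z, 0 < x → 0 < y → 0 < z → P x y z → (x, y, z) ∈ I) ∧
      A1 + A2 + A3 + F12.card + F13.card + F23.card + I.card ≤ T.card + 2 := by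
  refine ⟨(T.filter (fun t => lab t = (true, true, false))).image (fun t => (t.1, t.2.1)),
    (T.filter (fun t => lab t = (true, false, true))).image (fun t => (t.1, t.2.2)),
    (T.filter (fun t => lab t = (false, true, true))).image (fun t => (t.2.1, t.2.2)),
    T.filter (fun t => lab t = (true, true, true)), ?_, ?_, ?_, ?_, ?_⟩
  · intro x y hx hy hp
    rw [Finset.mem_image]
    exact ⟨(x, y, 0), by rw [Finset.mem_filter, hT, lab_iff]; simp [hp, hx, hy], rfl⟩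
  · intro x y hx hy hp
    rw [Finset.mem_image]
    exact ⟨(x, 0, y), by rw [Finset.mem_filter, hT, lab_iff]; simp [hp, hx, hy], rfl⟩
  · intro x y hx hy hp
    rw [Finset.mem_image]
    exact ⟨(0, x, y), by rw [Finset.mem_filter, hT, lab_iff]; simp [hp, hx, hy], rfl⟩
  · intro x y z hx hy hz hp
    rw [Finset.mem_filter, hT, lab_iff]
    simp [hp, hx, hy, hz]
  · have c1 := Finset.card_image_le (s := T.filter (fun t => lab t = (true, true, false)))
      (f := fun t => (t.1, t.2.1))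
    have c2 := Finset.card_image_le (s := T.filter (fun t => lab t = (true, false, true)))
      (f := fun t => (t.1, t.2.2))
    have c3 := Finset.card_image_le (s := T.filter (fun t => lab t = (false, true, true)))
      (f := fun t => (t.2.1, t.2.2))
    have cc := card_eq_num T
    have p1 : 0 < A1 := (hA1 0).1 h0
    have p2 : 0 < A2 := (hA2 0).1 h0
    have p3 : 0 < A3 := (hA3 0).1 h0
    have d0 : 1 ≤ num T false false false := by
      unfold num
      rw [Nat.one_le_iff_ne_zero, Ne, Finset.card_eq_zero]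
      intro hcon
      have : (0, 0, 0) ∈ T.filter (fun t => lab t = (false, false, false)) := by
        rw [Finset.mem_filter, hT, lab_iff]
        simp [h0]
      rw [hcon] at this
      simp at this
    have d1 : A1 - 1 ≤ num T true false false := by
      have h : (Finset.Icc 1 (A1 - 1)).card ≤ num T true false false := by
        refine Finset.card_le_card_of_injOn (fun k => (k, 0, 0)) ?_ ?_
        · intro k hk
          simp only [Finset.coe_Icc, Set.mem_Icc] at hk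
          simp only [Finset.coe_filter, Set.mem_ofPred_eq, hT, lab_iff, hA1]
          refine ⟨by omega, ?_⟩
          simp
          omega
        · intro a _ b _ hab
          simpa using hab
      rw [Nat.card_Icc] at h
      omega
    have d2 : A2 - 1 ≤ num T false true false := by
      have h : (Finset.Icc 1 (A2 - 1)).card ≤ num T false true false := by
        refine Finset.card_le_card_of_injOn (fun k => (0, k, 0)) ?_ ?_
        · intro k hk
          simp only [Finset.coe_Icc, Set.mem_Icc] at hk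
          simp only [Finset.coe_filter, Set.mem_ofPred_eq, hT, lab_iff, hA2]
          refine ⟨by omega, ?_⟩
          simp
          omega
        · intro a _ b _ hab
          simpa using hab
      rw [Nat.card_Icc] at h
      omega
    have d3 : A3 - 1 ≤ num T false false true := by
      have h : (Finset.Icc 1 (A3 - 1)).card ≤ num T false false true := by
        refine Finset.card_le_card_of_injOn (fun k => (0, 0, k)) ?_ ?_
        · intro k hk
          simp only [Finset.coe_Icc, Set.mem_Icc] at hk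
          simp only [Finset.coe_filter, Set.mem_ofPred_eq, hT, lab_iff, hA3]
          refine ⟨by omega, ?_⟩
          simp
          omega
        · intro a _ b _ hab
          simpa using hab
      rw [Nat.card_Icc] at h
      omega
    unfold num at *
    omega

lemma split_card {Q : ℕ → ℕ → Prop} (hQ : Down2 Q) {al be : ℕ} (hq : Q al be)
    (K : Finset (ℕ × ℕ)) (hK : ∀ p ∈ K, IsCor Q p.1 p.2) :
    K.card = (K.filter (fun p => p.1 < al)).card + (K.filter (fun p => p.2 < be)).card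
      + (K.filter (fun p => al ≤ p.1 ∧ be ≤ p.2)).card := by
  have h1 : K = (K.filter (fun p => p.1 < al) ∪ K.filter (fun p => p.2 < be)) ∪
      K.filter (fun p => al ≤ p.1 ∧ be ≤ p.2) := by
    ext p
    simp only [Finset.mem_union, Finset.mem_filter]
    constructor
    · intro hp
      by_cases c1 : p.1 < al
      · exact Or.inl (Or.inl ⟨hp, c1⟩)
      · by_cases c2 : p.2 < be
        · exact Or.inl (Or.inr ⟨hp, c2⟩)
        · exact Or.inr ⟨hp, by omega, by omega⟩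
    · rintro ((h | h) | h) <;> exact h.1
  have h2 := congrArg Finset.card h1
  rw [Finset.card_union_of_disjoint, Finset.card_union_of_disjoint] at h2
  · exact h2
  · rw [Finset.disjoint_left]
    intro p hp hp'
    rw [Finset.mem_filter] at hp hp'
    exact (hK p hp.1).2.2.1 (hQ _ _ _ _ hq (by omega) (by omega))
  · rw [Finset.disjoint_left]
    intro p hp hp'
    rw [Finset.mem_union, Finset.mem_filter, Finset.mem_filter] at hp
    rw [Finset.mem_filter] at hp'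
    rcases hp with hp | hp <;> omega

lemma box_card (P : ℕ → ℕ → ℕ → Prop)
    (down : ∀ x y z x' y' z', P x y z → x' ≤ x → y' ≤ y → z' ≤ z → P x' y' z')
    {al be ga : ℕ} (hu : Full P al be ga) (I : Finset (ℕ × ℕ × ℕ))
    (hI : ∀ x y z, 0 < x → 0 < y → 0 < z → P x y z → (x, y, z) ∈ I) :
    al * (be * ga) ≤ I.card + 1 := by
  have hsub : (Finset.Icc 1 al ×ˢ (Finset.Icc 1 be ×ˢ Finset.Icc 1 ga)).erase (al, be, ga) ⊆ I := by
    rintro ⟨x, y, z⟩ hp
    simp only [Finset.mem_erase, Finset.mem_product, Finset.mem_Icc, ne_eq, Prod.mk.injEq] at hp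
    apply hI x y z (by omega) (by omega) (by omega)
    by_cases h1 : x = al
    · by_cases h2 : y = be
      · exact down _ _ _ _ _ _ hu.2.2.2.2.2.2 (by omega) (by omega) (by omega)
      · exact down _ _ _ _ _ _ hu.2.2.2.2.2.1 (by omega) (by omega) (by omega)
    · exact down _ _ _ _ _ _ hu.2.2.2.2.1 (by omega) (by omega) (by omega)
  have hc := Finset.card_le_card hsub
  rw [Finset.card_erase_of_mem, Finset.card_product, Finset.card_product, Nat.card_Icc,
    Nat.card_Icc, Nat.card_Icc] at hc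
  · simp only [Nat.add_sub_cancel] at hc
    omega
  · have := hu.1
    have := hu.2.1
    have := hu.2.2.1
    simp only [Finset.mem_product, Finset.mem_Icc]
    omega

/-! numeric inequalities -/

lemma num_base (al be ga ra qa rb pb qc pc k1 k2 k3 S V U : ℤ)
    (hal : 1 ≤ al) (hbe : 1 ≤ be) (hga : 1 ≤ ga)
    (r1 : 0 ≤ ra) (r2 : ra ≤ al - 1) (q1 : 0 ≤ qa) (q2 : qa ≤ al - 1)
    (r3 : 0 ≤ rb) (r4 : rb ≤ be - 1) (p1 : 0 ≤ pb) (p2 : pb ≤ be - 1)
    (q3 : 0 ≤ qc) (q4 : qc ≤ ga - 1) (p3 : 0 ≤ pc) (p4 : pc ≤ ga - 1)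
    (k1' : k1 ≤ 1) (k2' : k2 ≤ 1) (k3' : k3 ≤ 1) (k10 : 0 ≤ k1) (k20 : 0 ≤ k2) (k30 : 0 ≤ k3)
    (hU : U = (ra + rb + k1) + (qa + qc + k2) + (pb + pc + k3) + 2) (hS : 3 * U ≤ 2 * S)
    (hV : 4 * S - 8 + 4 * (al * be) + 4 * (al * ga) + 4 * (be * ga) + 4 * (al * (be * ga)) - 4
      + 2 * (ra * (ra - 1)) + 2 * (rb * (rb - 1)) + 2 * (qa * (qa - 1)) + 2 * (qc * (qc - 1))
      + 2 * (pb * (pb - 1)) + 2 * (pc * (pc - 1)) ≤ 4 * V) : U * U ≤ 4 * V := by
  obtain ⟨a, ha⟩ : ∃ a, a = al - 1 := ⟨_, rfl⟩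
  obtain ⟨b, hb⟩ : ∃ b, b = be - 1 := ⟨_, rfl⟩
  obtain ⟨c, hc⟩ : ∃ c, c = ga - 1 := ⟨_, rfl⟩
  have ea : al = a + 1 := by omega
  have eb : be = b + 1 := by omega
  have ec : ga = c + 1 := by omega
  subst ea eb ec
  have ha0 : 0 ≤ a := by omega
  have hb0 : 0 ≤ b := by omega
  have hc0 : 0 ≤ c := by omega
  have X1 : 0 ≤ 2 * a - (ra + qa) := by omega
  have X2 : 0 ≤ 2 * b - (rb + pb) := by omega
  have X3 : 0 ≤ 2 * c - (qc + pc) := by omega
  have Y1 : 0 ≤ ra + qa := by omega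
  have Y2 : 0 ≤ rb + pb := by omega
  have Y3 : 0 ≤ qc + pc := by omega
  have m1 := mul_nonneg X1 hb0
  have m2 := mul_nonneg Y1 X2
  have m3 := mul_nonneg X2 hc0
  have m4 := mul_nonneg Y2 X3
  have m5 := mul_nonneg X3 ha0
  have m6 := mul_nonneg Y3 X1
  have m7 := mul_nonneg ha0 (mul_nonneg hb0 hc0)
  have m8 : 0 ≤ (ra + qa + rb + pb + qc + pc + 5 - U) * (ra + qa + rb + pb + qc + pc + U - 1) :=
    mul_nonneg (by omega) (by omega)
  have s1 := mul_self_nonneg (ra - qa)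
  have s2 := mul_self_nonneg (rb - pb)
  have s3 := mul_self_nonneg (qc - pc)
  linarith

lemma num_k (al be ga ra qa rb pb qc pc n k2 k3 S V U : ℤ)
    (hal : 1 ≤ al) (hbe : 1 ≤ be) (hga : 1 ≤ ga) (hn : 1 ≤ n)
    (r1 : 0 ≤ ra) (r2 : ra ≤ al - 1) (q1 : 0 ≤ qa) (q2 : qa ≤ al - 1)
    (r3 : 0 ≤ rb) (r4 : rb ≤ be - 1) (p1 : 0 ≤ pb) (p2 : pb ≤ be - 1)
    (q3 : 0 ≤ qc) (q4 : qc ≤ ga - 1) (p3 : 0 ≤ pc) (p4 : pc ≤ ga - 1)
    (k2' : k2 ≤ 1) (k3' : k3 ≤ 1) (k20 : 0 ≤ k2) (k30 : 0 ≤ k3)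
    (hU : U = (ra + rb + (n + 1)) + (qa + qc + k2) + (pb + pc + k3) + 2) (hS : 3 * U ≤ 2 * S)
    (hrect : 2 * ga + 2 < U)
    (hV : 4 * S - 8 + (4 * al * be - 4 * be + 3 * n * n - 4 * n
        + 4 * n * (2 * (al - 1) + 2 * (be - 1) + (qc + pc + 2 - ga)))
      + 4 * (al * ga) + 4 * (be * ga) + 4 * (al * (be * ga)) - 4
      + 2 * (ra * (ra - 1)) + 2 * (rb * (rb - 1)) + 2 * (qa * (qa - 1)) + 2 * (qc * (qc - 1))
      + 2 * (pb * (pb - 1)) + 2 * (pc * (pc - 1)) ≤ 4 * V) : U * U ≤ 4 * V := by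
  obtain ⟨a, ha⟩ : ∃ a, a = al - 1 := ⟨_, rfl⟩
  obtain ⟨b, hb⟩ : ∃ b, b = be - 1 := ⟨_, rfl⟩
  obtain ⟨c, hc⟩ : ∃ c, c = ga - 1 := ⟨_, rfl⟩
  have ea : al = a + 1 := by omega
  have eb : be = b + 1 := by omega
  have ec : ga = c + 1 := by omega
  subst ea eb ec
  have ha0 : 0 ≤ a := by omega
  have hb0 : 0 ≤ b := by omega
  have hc0 : 0 ≤ c := by omega
  have X1 : 0 ≤ 2 * a - (ra + qa) := by omega
  have X2 : 0 ≤ 2 * b - (rb + pb) := by omega
  have X3 : 0 ≤ 2 * c - (qc + pc) := by omega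
  have Y1 : 0 ≤ ra + qa := by omega
  have Y2 : 0 ≤ rb + pb := by omega
  have Y3 : 0 ≤ qc + pc := by omega
  have hn0 : 0 ≤ n := by omega
  have m1 := mul_nonneg X1 hb0
  have m2 := mul_nonneg Y1 X2
  have m3 := mul_nonneg X2 hc0
  have m4 := mul_nonneg Y2 X3
  have m5 := mul_nonneg X3 ha0
  have m6 := mul_nonneg Y3 X1
  have m7 := mul_nonneg ha0 (mul_nonneg hb0 hc0)
  have m8 : 0 ≤ (ra + qa + rb + pb + qc + pc + n + 5 - U)
      * (ra + qa + rb + pb + qc + pc + n + U - 1) := mul_nonneg (by omega) (by omega)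
  have s1 := mul_self_nonneg (ra - qa)
  have s2 := mul_self_nonneg (rb - pb)
  have s3 := mul_self_nonneg (qc - pc)
  have n1 := mul_nonneg hn0 X1
  have n2 := mul_nonneg hn0 X2
  have n3 := mul_nonneg hn0 ha0
  have n4 : 0 ≤ (n - 1) * b := mul_nonneg (by omega) hb0
  rcases le_total n 3 with h3 | h3
  · have n5 : 0 ≤ (3 - n) * (2 * c - (qc + pc)) := mul_nonneg (by omega) X3
    have n6 := mul_self_nonneg (n - 1)
    linarith
  · have n5 : 0 ≤ (n - 3) * (n + (ra + qa) + (rb + pb) - (2 * c - (qc + pc))) :=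
      mul_nonneg (by omega) (by omega)
    linarith

/-! assembly -/

section assembly

variable {R : Type*} [CommRing R] {P : ℕ → ℕ → ℕ → Prop} {e1 e2 e3 : R}

lemma two_central {Q : ℕ → ℕ → Prop} (hQ : Down2 Q) (K : Finset (ℕ × ℕ)) (al be : ℕ)
    (hK : ∀ a b, (a, b) ∈ K ↔ IsCor Q a b)
    (hk : 2 ≤ (K.filter (fun p => al ≤ p.1 ∧ be ≤ p.2)).card) :
    ∃ a1 b1 a2 b2, IsCor Q a1 b1 ∧ IsCor Q a2 b2 ∧ al ≤ a1 ∧ be ≤ b1 ∧ al ≤ a2 ∧ be ≤ b2 ∧
      a1 < a2 := by
  obtain ⟨⟨x, y⟩, hp, ⟨x', y'⟩, hp', hne⟩ := Finset.one_lt_card.1 (by omega :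
    1 < (K.filter (fun p => al ≤ p.1 ∧ be ≤ p.2)).card)
  rw [Finset.mem_filter, hK] at hp hp'
  have hx : x ≠ x' := by
    intro hxx
    exact hne (Prod.ext hxx (cor_eq1 hQ hp.1 hp'.1 hxx))
  rcases Nat.lt_or_gt_of_ne hx with h | h
  · exact ⟨x, y, x', y', hp.1, hp'.1, hp.2.1, hp.2.2, hp'.2.1, hp'.2.2, h⟩
  · exact ⟨x', y', x, y, hp'.1, hp.1, hp'.2.1, hp'.2.2, hp.2.1, hp.2.2, h⟩

theorem case12 (h : Tile P e1 e2 e3) {al be ga : ℕ} (hu : Full P al be ga)
    (T : Finset (ℕ × ℕ × ℕ)) (hT : ∀ x y z, (x, y, z) ∈ T ↔ P x y z)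
    (K12 K13 K23 : Finset (ℕ × ℕ))
    (hK12 : ∀ a b, (a, b) ∈ K12 ↔ IsCor (fun x y => P x y 0) a b)
    (hK13 : ∀ a b, (a, b) ∈ K13 ↔ IsCor (fun x y => P x 0 y) a b)
    (hK23 : ∀ a b, (a, b) ∈ K23 ↔ IsCor (fun x y => P 0 x y) a b)
    (A1 A2 A3 : ℕ) (hA1 : ∀ k, P k 0 0 ↔ k < A1) (hA2 : ∀ k, P 0 k 0 ↔ k < A2)
    (hA3 : ∀ k, P 0 0 k ↔ k < A3)
    (h12 : K12.card + K13.card + K23.card + 2 ≤ A1 + A2)
    (h13 : K12.card + K13.card + K23.card + 2 ≤ A1 + A3)
    (h23 : K12.card + K13.card + K23.card + 2 ≤ A2 + A3)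
    (hk : 2 ≤ (K12.filter (fun p => al ≤ p.1 ∧ be ≤ p.2)).card) :
    (K12.card + K13.card + K23.card + 2) * (K12.card + K13.card + K23.card + 2)
      ≤ 4 * T.card := by
  obtain ⟨a1, b1, a2, b2, c1, c2, o1, o2, o3, o4, o5⟩ := two_central h.d12 K12 al be hK12 hk
  have k13 : (K13.filter (fun p => al ≤ p.1 ∧ ga ≤ p.2)).card ≤ 1 := by
    by_contra hcon
    obtain ⟨x1, z1, x2, z2, d1, d2, t1, t2, t3, t4, t5⟩ := two_central h.d13 K13 al ga hK13
      (by omega)
    exact struct13 h hu c1 c2 o1 o2 o3 o4 o5 d1 d2 t1 t2 t3 t4 t5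
  have k23 : (K23.filter (fun p => be ≤ p.1 ∧ ga ≤ p.2)).card ≤ 1 := by
    by_contra hcon
    obtain ⟨x1, z1, x2, z2, d1, d2, t1, t2, t3, t4, t5⟩ := two_central h.d23 K23 be ga hK23
      (by omega)
    exact struct13 h.swap12 hu.swap12 c2.swap c1.swap o4 o3 o2 o1 (cor_anti h.d12 c1 c2 o5)
      d1 d2 t1 t2 t3 t4 t5
  obtain ⟨U, hU⟩ : ∃ U, U = K12.card + K13.card + K23.card + 2 := ⟨_, rfl⟩
  rw [← hU] at h12 h13 h23 ⊢
  by_cases hrect : 2 * ga + 2 < U
  swap
  · have rb1 := rect_bound h hu T hT A1 hA1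
    have rb2 := rect_bound h.swap12 hu.swap12 (T.image (fun t => (t.2.1, t.1, t.2.2))) (by
      intro x y z
      rw [Finset.mem_image]
      constructor
      · rintro ⟨⟨a, b, c⟩, ht, hh⟩
        simp only [Prod.mk.injEq] at hh
        rw [hT] at ht
        rw [← hh.1, ← hh.2.1, ← hh.2.2]
        exact ht
      · intro ht
        exact ⟨(y, x, z), (hT y x z).2 ht, rfl⟩) A2 hA2
    have rb3 := Finset.card_image_le (s := T) (f := fun t => (t.2.1, t.1, t.2.2))
    have f1 : U * U ≤ U * (2 * (ga + 1)) := Nat.mul_le_mul_left _ (by omega)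
    have f2 : U * (2 * (ga + 1)) ≤ (A1 + A2) * (2 * (ga + 1)) := Nat.mul_le_mul_right _ h12
    have f3 : (A1 + A2) * (2 * (ga + 1)) = 2 * (A1 * (ga + 1)) + 2 * (A2 * (ga + 1)) := by ring
    omega
  have q12 : P al be 0 := h.down _ _ _ _ _ _ hu.2.2.2.2.2.2 (le_refl _) (le_refl _)
    (Nat.zero_le _)
  have q13 : P al 0 ga := h.down _ _ _ _ _ _ hu.2.2.2.2.2.1 (le_refl _) (Nat.zero_le _)
    (le_refl _)
  have q23 : P 0 be ga := h.down _ _ _ _ _ _ hu.2.2.2.2.1 (Nat.zero_le _) (le_refl _)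
    (le_refl _)
  have hc12 : ∀ p ∈ K12, IsCor (fun x y => P x y 0) p.1 p.2 := fun p hp => (hK12 p.1 p.2).1 hp
  have hc13 : ∀ p ∈ K13, IsCor (fun x y => P x 0 y) p.1 p.2 := fun p hp => (hK13 p.1 p.2).1 hp
  have hc23 : ∀ p ∈ K23, IsCor (fun x y => P 0 x y) p.1 p.2 := fun p hp => (hK23 p.1 p.2).1 hp
  have s12 := split_card h.d12 q12 K12 hc12
  have s13 := split_card h.d13 q13 K13 hc13
  have s23 := split_card h.d23 q23 K23 hc23
  obtain ⟨F12, F13, F23, I, g1, g2, g3, g4, g5⟩ := total P h.zero T hT A1 A2 A3 hA1 hA2 hA3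
  have bI := box_card P h.down hu I g4
  have ar13 := area_base h.d13 q13 F13 (K13.filter (fun p => p.1 < al))
    (K13.filter (fun p => p.2 < ga)) g2
    (fun p hp => ⟨hc13 p (Finset.mem_filter.1 hp).1, (Finset.mem_filter.1 hp).2⟩)
    (fun p hp => ⟨hc13 p (Finset.mem_filter.1 hp).1, (Finset.mem_filter.1 hp).2⟩)
  have ar23 := area_base h.d23 q23 F23 (K23.filter (fun p => p.1 < be))
    (K23.filter (fun p => p.2 < ga)) g3
    (fun p hp => ⟨hc23 p (Finset.mem_filter.1 hp).1, (Finset.mem_filter.1 hp).2⟩)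
    (fun p hp => ⟨hc23 p (Finset.mem_filter.1 hp).1, (Finset.mem_filter.1 hp).2⟩)
  obtain ⟨n, hn⟩ : ∃ n, (K12.filter (fun p => al ≤ p.1 ∧ be ≤ p.2)).card = n + 1 :=
    ⟨(K12.filter (fun p => al ≤ p.1 ∧ be ≤ p.2)).card - 1, by omega⟩
  have ar12 := area_k h hu K12 K13 K23 hK12 hK13 hK23 F12 g1 n hn
  have l1 := card_low1 h.d12 (K12.filter (fun p => p.1 < al)) al
    (fun p hp => ⟨hc12 p (Finset.mem_filter.1 hp).1, (Finset.mem_filter.1 hp).2⟩)
  have l2 := card_low2 h.d12 (K12.filter (fun p => p.2 < be)) be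
    (fun p hp => ⟨hc12 p (Finset.mem_filter.1 hp).1, (Finset.mem_filter.1 hp).2⟩)
  have l3 := card_low1 h.d13 (K13.filter (fun p => p.1 < al)) al
    (fun p hp => ⟨hc13 p (Finset.mem_filter.1 hp).1, (Finset.mem_filter.1 hp).2⟩)
  have l4 := card_low2 h.d13 (K13.filter (fun p => p.2 < ga)) ga
    (fun p hp => ⟨hc13 p (Finset.mem_filter.1 hp).1, (Finset.mem_filter.1 hp).2⟩)
  have l5 := card_low1 h.d23 (K23.filter (fun p => p.1 < be)) be
    (fun p hp => ⟨hc23 p (Finset.mem_filter.1 hp).1, (Finset.mem_filter.1 hp).2⟩)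
  have l6 := card_low2 h.d23 (K23.filter (fun p => p.2 < ga)) ga
    (fun p hp => ⟨hc23 p (Finset.mem_filter.1 hp).1, (Finset.mem_filter.1 hp).2⟩)
  obtain ⟨ra, hra⟩ : ∃ x, x = (K12.filter (fun p => p.1 < al)).card := ⟨_, rfl⟩
  obtain ⟨rb, hrb⟩ : ∃ x, x = (K12.filter (fun p => p.2 < be)).card := ⟨_, rfl⟩
  obtain ⟨qa, hqa⟩ : ∃ x, x = (K13.filter (fun p => p.1 < al)).card := ⟨_, rfl⟩
  obtain ⟨qc, hqc⟩ : ∃ x, x = (K13.filter (fun p => p.2 < ga)).card := ⟨_, rfl⟩
  obtain ⟨pb, hpb⟩ : ∃ x, x = (K23.filter (fun p => p.1 < be)).card := ⟨_, rfl⟩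
  obtain ⟨pc, hpc⟩ : ∃ x, x = (K23.filter (fun p => p.2 < ga)).card := ⟨_, rfl⟩
  obtain ⟨k2, hk2⟩ : ∃ x, x = (K13.filter (fun p => al ≤ p.1 ∧ ga ≤ p.2)).card := ⟨_, rfl⟩
  obtain ⟨k3, hk3⟩ : ∃ x, x = (K23.filter (fun p => be ≤ p.1 ∧ ga ≤ p.2)).card := ⟨_, rfl⟩
  rw [hn, ← hra, ← hrb] at s12
  rw [← hqa, ← hqc, ← hk2] at s13
  rw [← hpb, ← hpc, ← hk3] at s23
  rw [← hra, ← hrb, ← hqc, ← hpc] at ar12
  rw [← hqa, ← hqc] at ar13
  rw [← hpb, ← hpc] at ar23
  rw [← hra] at l1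
  rw [← hrb] at l2
  rw [← hqa] at l3
  rw [← hqc] at l4
  rw [← hpb] at l5
  rw [← hpc] at l6
  rw [← hk2] at k13
  rw [← hk3] at k23
  have al0 := hu.1
  have be0 := hu.2.1
  have ga0 := hu.2.2.1
  rw [hn] at hk
  have ct : ∀ N : ℕ, 2 * ((tri N).card : ℤ) = (N : ℤ) * ((N : ℤ) - 1) := by
    intro N
    have := card_tri N
    rcases N with _ | N
    · simp [tri]
    · have h2 : ((2 * (tri (N + 1)).card : ℕ) : ℤ) = (((N + 1) * N : ℕ) : ℤ) := by
        rw [this]
        simp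
      push_cast at h2 ⊢
      linarith
  have final := num_k al be ga ra qa rb pb qc pc n k2 k3 (A1 + A2 + A3) T.card U
    (by omega) (by omega) (by omega) (by omega) (by omega) (by omega) (by omega) (by omega)
    (by omega) (by omega) (by omega) (by omega) (by omega) (by omega) (by omega) (by omega)
    (by omega) (by omega) (by omega) (by omega) (by rw [hU, s12, s13, s23]; push_cast; ring)
    (by omega) (by omega) (by
      have c1 := ct ra
      have c2 := ct rb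
      have c3 := ct qa
      have c4 := ct qc
      have c5 := ct pb
      have c6 := ct pc
      have g5' : ((A1 + A2 + A3 + F12.card + F13.card + F23.card + I.card : ℕ) : ℤ)
        ≤ ((T.card + 2 : ℕ) : ℤ) := by exact_mod_cast g5
      have bI' : ((al * (be * ga) : ℕ) : ℤ) ≤ ((I.card + 1 : ℕ) : ℤ) := by exact_mod_cast bI
      have a13 : ((al * ga + (tri qa).card + (tri qc).card : ℕ) : ℤ) ≤ (F13.card : ℤ) := by
        exact_mod_cast ar13
      have a23 : ((be * ga + (tri pb).card + (tri pc).card : ℕ) : ℤ) ≤ (F23.card : ℤ) := by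
        exact_mod_cast ar23
      push_cast at g5' bI' a13 a23
      linarith)
  exact_mod_cast final

lemma swap_iff (Q : ℕ → ℕ → Prop) (K : Finset (ℕ × ℕ)) (hK : ∀ a b, (a, b) ∈ K ↔ IsCor Q a b)
    (a b : ℕ) : (a, b) ∈ K.image Prod.swap ↔ IsCor (fun x y => Q y x) a b := by
  rw [Finset.mem_image]
  constructor
  · rintro ⟨⟨x, y⟩, hp, hh⟩
    simp only [Prod.swap_prod_mk, Prod.mk.injEq] at hh
    rw [hK] at hp
    rw [← hh.1, ← hh.2]
    exact hp.swap
  · intro hc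
    exact ⟨(b, a), (hK b a).2 hc.swap, rfl⟩

lemma swap_card (K : Finset (ℕ × ℕ)) : (K.image Prod.swap).card = K.card :=
  Finset.card_image_of_injective _ Prod.swap_injective

theorem case13 (h : Tile P e1 e2 e3) {al be ga : ℕ} (hu : Full P al be ga)
    (T : Finset (ℕ × ℕ × ℕ)) (hT : ∀ x y z, (x, y, z) ∈ T ↔ P x y z)
    (K12 K13 K23 : Finset (ℕ × ℕ))
    (hK12 : ∀ a b, (a, b) ∈ K12 ↔ IsCor (fun x y => P x y 0) a b)
    (hK13 : ∀ a b, (a, b) ∈ K13 ↔ IsCor (fun x y => P x 0 y) a b)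
    (hK23 : ∀ a b, (a, b) ∈ K23 ↔ IsCor (fun x y => P 0 x y) a b)
    (A1 A2 A3 : ℕ) (hA1 : ∀ k, P k 0 0 ↔ k < A1) (hA2 : ∀ k, P 0 k 0 ↔ k < A2)
    (hA3 : ∀ k, P 0 0 k ↔ k < A3)
    (h12 : K12.card + K13.card + K23.card + 2 ≤ A1 + A2)
    (h13 : K12.card + K13.card + K23.card + 2 ≤ A1 + A3)
    (h23 : K12.card + K13.card + K23.card + 2 ≤ A2 + A3)
    (hk : 2 ≤ (K13.filter (fun p => al ≤ p.1 ∧ ga ≤ p.2)).card) :
    (K12.card + K13.card + K23.card + 2) * (K12.card + K13.card + K23.card + 2)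
      ≤ 4 * T.card := by
  have hsum : K13.card + K12.card + (K23.image Prod.swap).card + 2
      = K12.card + K13.card + K23.card + 2 := by rw [swap_card]; ring
  have key := case12 h.swap23 hu.swap23 (T.image (fun t => (t.1, t.2.2, t.2.1))) (by
      intro x y z
      rw [Finset.mem_image]
      constructor
      · rintro ⟨⟨a, b, c⟩, ht, hh⟩
        simp only [Prod.mk.injEq] at hh
        rw [hT] at ht
        rw [← hh.1, ← hh.2.1, ← hh.2.2]
        exact ht
      · intro ht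
        exact ⟨(x, z, y), (hT x z y).2 ht, rfl⟩) K13 K12 (K23.image Prod.swap)
      hK13 hK12 (swap_iff _ K23 hK23) A1 A3 A2 hA1 hA3 hA2
      (by rw [hsum]; exact h13) (by rw [hsum]; exact h12) (by rw [hsum]; omega) hk
  rw [hsum] at key
  have := Finset.card_image_le (s := T) (f := fun t => (t.1, t.2.2, t.2.1))
  omega

theorem case23 (h : Tile P e1 e2 e3) {al be ga : ℕ} (hu : Full P al be ga)
    (T : Finset (ℕ × ℕ × ℕ)) (hT : ∀ x y z, (x, y, z) ∈ T ↔ P x y z)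
    (K12 K13 K23 : Finset (ℕ × ℕ))
    (hK12 : ∀ a b, (a, b) ∈ K12 ↔ IsCor (fun x y => P x y 0) a b)
    (hK13 : ∀ a b, (a, b) ∈ K13 ↔ IsCor (fun x y => P x 0 y) a b)
    (hK23 : ∀ a b, (a, b) ∈ K23 ↔ IsCor (fun x y => P 0 x y) a b)
    (A1 A2 A3 : ℕ) (hA1 : ∀ k, P k 0 0 ↔ k < A1) (hA2 : ∀ k, P 0 k 0 ↔ k < A2)
    (hA3 : ∀ k, P 0 0 k ↔ k < A3)
    (h12 : K12.card + K13.card + K23.card + 2 ≤ A1 + A2)
    (h13 : K12.card + K13.card + K23.card + 2 ≤ A1 + A3)
    (h23 : K12.card + K13.card + K23.card + 2 ≤ A2 + A3)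
    (hk : 2 ≤ (K23.filter (fun p => be ≤ p.1 ∧ ga ≤ p.2)).card) :
    (K12.card + K13.card + K23.card + 2) * (K12.card + K13.card + K23.card + 2)
      ≤ 4 * T.card := by
  have hsum : (K12.image Prod.swap).card + K23.card + K13.card + 2
      = K12.card + K13.card + K23.card + 2 := by rw [swap_card]; ring
  have key := case13 h.swap12 hu.swap12 (T.image (fun t => (t.2.1, t.1, t.2.2))) (by
      intro x y z
      rw [Finset.mem_image]
      constructor
      · rintro ⟨⟨a, b, c⟩, ht, hh⟩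
        simp only [Prod.mk.injEq] at hh
        rw [hT] at ht
        rw [← hh.1, ← hh.2.1, ← hh.2.2]
        exact ht
      · intro ht
        exact ⟨(y, x, z), (hT y x z).2 ht, rfl⟩) (K12.image Prod.swap) K23 K13
      (swap_iff _ K12 hK12) hK23 hK13 A2 A1 A3 hA2 hA1 hA3
      (by rw [hsum]; omega) (by rw [hsum]; exact h23) (by rw [hsum]; exact h13) hk
  rw [hsum] at key
  have := Finset.card_image_le (s := T) (f := fun t => (t.2.1, t.1, t.2.2))
  omega

theorem caseBase (h : Tile P e1 e2 e3) {al be ga : ℕ} (hu : Full P al be ga)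
    (T : Finset (ℕ × ℕ × ℕ)) (hT : ∀ x y z, (x, y, z) ∈ T ↔ P x y z)
    (K12 K13 K23 : Finset (ℕ × ℕ))
    (hK12 : ∀ a b, (a, b) ∈ K12 ↔ IsCor (fun x y => P x y 0) a b)
    (hK13 : ∀ a b, (a, b) ∈ K13 ↔ IsCor (fun x y => P x 0 y) a b)
    (hK23 : ∀ a b, (a, b) ∈ K23 ↔ IsCor (fun x y => P 0 x y) a b)
    (A1 A2 A3 : ℕ) (hA1 : ∀ k, P k 0 0 ↔ k < A1) (hA2 : ∀ k, P 0 k 0 ↔ k < A2)
    (hA3 : ∀ k, P 0 0 k ↔ k < A3)
    (hS : 3 * (K12.card + K13.card + K23.card + 2) ≤ 2 * (A1 + A2 + A3))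
    (k12 : (K12.filter (fun p => al ≤ p.1 ∧ be ≤ p.2)).card ≤ 1)
    (k13 : (K13.filter (fun p => al ≤ p.1 ∧ ga ≤ p.2)).card ≤ 1)
    (k23 : (K23.filter (fun p => be ≤ p.1 ∧ ga ≤ p.2)).card ≤ 1) :
    (K12.card + K13.card + K23.card + 2) * (K12.card + K13.card + K23.card + 2)
      ≤ 4 * T.card := by
  obtain ⟨U, hU⟩ : ∃ U, U = K12.card + K13.card + K23.card + 2 := ⟨_, rfl⟩
  rw [← hU] at hS ⊢
  have q12 : P al be 0 := h.down _ _ _ _ _ _ hu.2.2.2.2.2.2 (le_refl _) (le_refl _)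
    (Nat.zero_le _)
  have q13 : P al 0 ga := h.down _ _ _ _ _ _ hu.2.2.2.2.2.1 (le_refl _) (Nat.zero_le _)
    (le_refl _)
  have q23 : P 0 be ga := h.down _ _ _ _ _ _ hu.2.2.2.2.1 (Nat.zero_le _) (le_refl _)
    (le_refl _)
  have hc12 : ∀ p ∈ K12, IsCor (fun x y => P x y 0) p.1 p.2 := fun p hp => (hK12 p.1 p.2).1 hp
  have hc13 : ∀ p ∈ K13, IsCor (fun x y => P x 0 y) p.1 p.2 := fun p hp => (hK13 p.1 p.2).1 hp
  have hc23 : ∀ p ∈ K23, IsCor (fun x y => P 0 x y) p.1 p.2 := fun p hp => (hK23 p.1 p.2).1 hp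
  have s12 := split_card h.d12 q12 K12 hc12
  have s13 := split_card h.d13 q13 K13 hc13
  have s23 := split_card h.d23 q23 K23 hc23
  obtain ⟨F12, F13, F23, I, g1, g2, g3, g4, g5⟩ := total P h.zero T hT A1 A2 A3 hA1 hA2 hA3
  have bI := box_card P h.down hu I g4
  have ar12 := area_base h.d12 q12 F12 (K12.filter (fun p => p.1 < al))
    (K12.filter (fun p => p.2 < be)) g1
    (fun p hp => ⟨hc12 p (Finset.mem_filter.1 hp).1, (Finset.mem_filter.1 hp).2⟩)
    (fun p hp => ⟨hc12 p (Finset.mem_filter.1 hp).1, (Finset.mem_filter.1 hp).2⟩)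
  have ar13 := area_base h.d13 q13 F13 (K13.filter (fun p => p.1 < al))
    (K13.filter (fun p => p.2 < ga)) g2
    (fun p hp => ⟨hc13 p (Finset.mem_filter.1 hp).1, (Finset.mem_filter.1 hp).2⟩)
    (fun p hp => ⟨hc13 p (Finset.mem_filter.1 hp).1, (Finset.mem_filter.1 hp).2⟩)
  have ar23 := area_base h.d23 q23 F23 (K23.filter (fun p => p.1 < be))
    (K23.filter (fun p => p.2 < ga)) g3
    (fun p hp => ⟨hc23 p (Finset.mem_filter.1 hp).1, (Finset.mem_filter.1 hp).2⟩)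
    (fun p hp => ⟨hc23 p (Finset.mem_filter.1 hp).1, (Finset.mem_filter.1 hp).2⟩)
  have l1 := card_low1 h.d12 (K12.filter (fun p => p.1 < al)) al
    (fun p hp => ⟨hc12 p (Finset.mem_filter.1 hp).1, (Finset.mem_filter.1 hp).2⟩)
  have l2 := card_low2 h.d12 (K12.filter (fun p => p.2 < be)) be
    (fun p hp => ⟨hc12 p (Finset.mem_filter.1 hp).1, (Finset.mem_filter.1 hp).2⟩)
  have l3 := card_low1 h.d13 (K13.filter (fun p => p.1 < al)) al
    (fun p hp => ⟨hc13 p (Finset.mem_filter.1 hp).1, (Finset.mem_filter.1 hp).2⟩)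
  have l4 := card_low2 h.d13 (K13.filter (fun p => p.2 < ga)) ga
    (fun p hp => ⟨hc13 p (Finset.mem_filter.1 hp).1, (Finset.mem_filter.1 hp).2⟩)
  have l5 := card_low1 h.d23 (K23.filter (fun p => p.1 < be)) be
    (fun p hp => ⟨hc23 p (Finset.mem_filter.1 hp).1, (Finset.mem_filter.1 hp).2⟩)
  have l6 := card_low2 h.d23 (K23.filter (fun p => p.2 < ga)) ga
    (fun p hp => ⟨hc23 p (Finset.mem_filter.1 hp).1, (Finset.mem_filter.1 hp).2⟩)
  obtain ⟨ra, hra⟩ : ∃ x, x = (K12.filter (fun p => p.1 < al)).card := ⟨_, rfl⟩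
  obtain ⟨rb, hrb⟩ : ∃ x, x = (K12.filter (fun p => p.2 < be)).card := ⟨_, rfl⟩
  obtain ⟨qa, hqa⟩ : ∃ x, x = (K13.filter (fun p => p.1 < al)).card := ⟨_, rfl⟩
  obtain ⟨qc, hqc⟩ : ∃ x, x = (K13.filter (fun p => p.2 < ga)).card := ⟨_, rfl⟩
  obtain ⟨pb, hpb⟩ : ∃ x, x = (K23.filter (fun p => p.1 < be)).card := ⟨_, rfl⟩
  obtain ⟨pc, hpc⟩ : ∃ x, x = (K23.filter (fun p => p.2 < ga)).card := ⟨_, rfl⟩
  obtain ⟨k1, hk1⟩ : ∃ x, x = (K12.filter (fun p => al ≤ p.1 ∧ be ≤ p.2)).card := ⟨_, rfl⟩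
  obtain ⟨k2, hk2⟩ : ∃ x, x = (K13.filter (fun p => al ≤ p.1 ∧ ga ≤ p.2)).card := ⟨_, rfl⟩
  obtain ⟨k3, hk3⟩ : ∃ x, x = (K23.filter (fun p => be ≤ p.1 ∧ ga ≤ p.2)).card := ⟨_, rfl⟩
  rw [← hra, ← hrb, ← hk1] at s12
  rw [← hqa, ← hqc, ← hk2] at s13
  rw [← hpb, ← hpc, ← hk3] at s23
  rw [← hra, ← hrb] at ar12
  rw [← hqa, ← hqc] at ar13
  rw [← hpb, ← hpc] at ar23
  rw [← hra] at l1
  rw [← hrb] at l2
  rw [← hqa] at l3
  rw [← hqc] at l4
  rw [← hpb] at l5
  rw [← hpc] at l6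
  rw [← hk1] at k12
  rw [← hk2] at k13
  rw [← hk3] at k23
  have al0 := hu.1
  have be0 := hu.2.1
  have ga0 := hu.2.2.1
  have ct : ∀ N : ℕ, 2 * ((tri N).card : ℤ) = (N : ℤ) * ((N : ℤ) - 1) := by
    intro N
    have := card_tri N
    rcases N with _ | N
    · simp [tri]
    · have h2 : ((2 * (tri (N + 1)).card : ℕ) : ℤ) = (((N + 1) * N : ℕ) : ℤ) := by
        rw [this]
        simp
      push_cast at h2 ⊢
      linarith
  have final := num_base al be ga ra qa rb pb qc pc k1 k2 k3 (A1 + A2 + A3) T.card U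
    (by omega) (by omega) (by omega) (by omega) (by omega) (by omega) (by omega) (by omega)
    (by omega) (by omega) (by omega) (by omega) (by omega) (by omega) (by omega) (by omega)
    (by omega) (by omega) (by omega) (by omega) (by omega)
    (by rw [hU, s12, s13, s23]; push_cast; ring)
    (by omega) (by
      have c1 := ct ra
      have c2 := ct rb
      have c3 := ct qa
      have c4 := ct qc
      have c5 := ct pb
      have c6 := ct pc
      have g5' : ((A1 + A2 + A3 + F12.card + F13.card + F23.card + I.card : ℕ) : ℤ)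
        ≤ ((T.card + 2 : ℕ) : ℤ) := by exact_mod_cast g5
      have bI' : ((al * (be * ga) : ℕ) : ℤ) ≤ ((I.card + 1 : ℕ) : ℤ) := by exact_mod_cast bI
      have a12 : ((al * be + (tri ra).card + (tri rb).card : ℕ) : ℤ) ≤ (F12.card : ℤ) := by
        exact_mod_cast ar12
      have a13 : ((al * ga + (tri qa).card + (tri qc).card : ℕ) : ℤ) ≤ (F13.card : ℤ) := by
        exact_mod_cast ar13
      have a23 : ((be * ga + (tri pb).card + (tri pc).card : ℕ) : ℤ) ≤ (F23.card : ℤ) := by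
        exact_mod_cast ar23
      push_cast at g5' bI' a12 a13 a23
      linarith)
  exact_mod_cast final

theorem delta1 (h : Tile P e1 e2 e3) {al be ga : ℕ} (hu : Full P al be ga)
    (T : Finset (ℕ × ℕ × ℕ)) (hT : ∀ x y z, (x, y, z) ∈ T ↔ P x y z)
    (K12 K13 K23 : Finset (ℕ × ℕ))
    (hK12 : ∀ a b, (a, b) ∈ K12 ↔ IsCor (fun x y => P x y 0) a b)
    (hK13 : ∀ a b, (a, b) ∈ K13 ↔ IsCor (fun x y => P x 0 y) a b)
    (hK23 : ∀ a b, (a, b) ∈ K23 ↔ IsCor (fun x y => P 0 x y) a b)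
    (A1 A2 A3 : ℕ) (hA1 : ∀ k, P k 0 0 ↔ k < A1) (hA2 : ∀ k, P 0 k 0 ↔ k < A2)
    (hA3 : ∀ k, P 0 0 k ↔ k < A3)
    (h12 : K12.card + K13.card + K23.card + 2 ≤ A1 + A2)
    (h13 : K12.card + K13.card + K23.card + 2 ≤ A1 + A3)
    (h23 : K12.card + K13.card + K23.card + 2 ≤ A2 + A3) :
    (K12.card + K13.card + K23.card + 2) * (K12.card + K13.card + K23.card + 2)
      ≤ 4 * T.card := by
  by_cases c1 : 2 ≤ (K12.filter (fun p => al ≤ p.1 ∧ be ≤ p.2)).card
  · exact case12 h hu T hT K12 K13 K23 hK12 hK13 hK23 A1 A2 A3 hA1 hA2 hA3 h12 h13 h23 c1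
  by_cases c2 : 2 ≤ (K13.filter (fun p => al ≤ p.1 ∧ ga ≤ p.2)).card
  · exact case13 h hu T hT K12 K13 K23 hK12 hK13 hK23 A1 A2 A3 hA1 hA2 hA3 h12 h13 h23 c2
  by_cases c3 : 2 ≤ (K23.filter (fun p => be ≤ p.1 ∧ ga ≤ p.2)).card
  · exact case23 h hu T hT K12 K13 K23 hK12 hK13 hK23 A1 A2 A3 hA1 hA2 hA3 h12 h13 h23 c3
  exact caseBase h hu T hT K12 K13 K23 hK12 hK13 hK23 A1 A2 A3 hA1 hA2 hA3 (by omega)
    (by omega) (by omega) (by omega)

end assembly

end Pool.Agent.Helper723.Delta1
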