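import Mathlib

set_option autoImplicit false

namespace Pool.Agent.Helper723.Egg

open scoped TensorProduct

section FracDeriv

variable (F : Type) [Field F] (σ : Type)

/-- rational function field -/
abbrev Kf := FractionRing (MvPolynomial σ F)

variable {σ}

open scoped Classical in
/-- dual-number valued evaluation -/
noncomputable def ev (i : σ) : MvPolynomial σ F →ₐ[F] TrivSqZeroExt (Kf F σ) (Kf F σ) :=
  MvPolynomial.aeval (fun j => TrivSqZeroExt.inl
    (algebraMap (MvPolynomial σ F) (Kf F σ) (MvPolynomial.X j)) +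
    TrivSqZeroExt.inr (if j = i then 1 else 0))

lemma fst_ev (i : σ) (f : MvPolynomial σ F) :
    (ev F i f).fst = algebraMap _ (Kf F σ) f := by
  have : (TrivSqZeroExt.fstHom F (Kf F σ) (Kf F σ)).comp (ev F i) =
      IsScalarTower.toAlgHom F (MvPolynomial σ F) (Kf F σ) := by
    apply MvPolynomial.algHom_ext
    intro j
    simp [ev]
    split_ifs <;> simp
  exact DFunLike.congr_fun this f

lemma unit_ev (i : σ) (f : nonZeroDivisors (MvPolynomial σ F)) : IsUnit (ev F i f) := by
  rw [TrivSqZeroExt.isUnit_iff_isUnit_fst, fst_ev]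
  exact IsLocalization.map_units (Kf F σ) f

/-- extension to the fraction field -/
noncomputable def evK (i : σ) : Kf F σ →ₐ[F] TrivSqZeroExt (Kf F σ) (Kf F σ) :=
  IsLocalization.liftAlgHom (M := nonZeroDivisors (MvPolynomial σ F)) (f := ev F i) (unit_ev F i)

lemma evK_algebraMap (i : σ) (f : MvPolynomial σ F) :
    evK F i (algebraMap _ _ f) = ev F i f := by
  simp [evK, IsLocalization.lift_eq]

lemma fst_evK (i : σ) (x : Kf F σ) : (evK F i x).fst = x := by
  have : (TrivSqZeroExt.fstHom F (Kf F σ) (Kf F σ)).comp (evK F i) = AlgHom.id F _ := by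
    apply IsLocalization.algHom_ext (nonZeroDivisors (MvPolynomial σ F))
    apply AlgHom.ext
    intro f
    have h1 := evK_algebraMap F i f
    have h2 := fst_ev F i f
    rw [← h1] at h2
    exact h2
  exact DFunLike.congr_fun this x

/-- partial derivatives on the rational function field -/
noncomputable def dK (i : σ) : Derivation F (Kf F σ) (Kf F σ) :=
  Derivation.mk' ((TrivSqZeroExt.sndHom (Kf F σ) (Kf F σ)).restrictScalars F ∘ₗ
    (evK F i).toLinearMap) (by
      intro a b
      simp [TrivSqZeroExt.snd_mul, fst_evK, mul_comm])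

open scoped Classical in
lemma dK_X (i j : σ) : dK F i (algebraMap (MvPolynomial σ F) (Kf F σ) (MvPolynomial.X j)) =
    if j = i then 1 else 0 := by
  simp [dK, evK_algebraMap, ev]
  split_ifs <;> simp

end FracDeriv

end Pool.Agent.Helper723.Egg
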