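import Mathlib

set_option autoImplicit false

namespace Pool.Agent.Helper723.Egg

open scoped TensorProduct

section Base

variable {F K B : Type} [Field F] [Field K] [Algebra F K] [CommRing B] [Algebra F B]

/-- coefficientwise derivation on `K ⊗ B` -/
noncomputable def dC (d : Derivation F K K) : Derivation F (K ⊗[F] B) (K ⊗[F] B) :=
  Derivation.mk' (LinearMap.rTensor B (d : K →ₗ[F] K)) (by
    intro x y
    induction x using TensorProduct.induction_on with
    | zero => simp
    | add x1 x2 h1 h2 =>
      simp only [add_mul, map_add, h1, h2, smul_eq_mul, mul_add]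
      ring
    | tmul k b =>
      induction y using TensorProduct.induction_on with
      | zero => simp
      | add y1 y2 h1 h2 =>
        simp only [mul_add, map_add, h1, h2, smul_eq_mul, add_mul]
        ring
      | tmul k' b' =>
        simp only [Algebra.TensorProduct.tmul_mul_tmul, LinearMap.rTensor_tmul, smul_eq_mul,
          Derivation.coeFn_coe, Derivation.leibniz, TensorProduct.add_tmul]
        rw [mul_comm b b'])

lemma dC_tmul (d : Derivation F K K) (k : K) (b : B) :
    dC d (k ⊗ₜ[F] b) = (d k) ⊗ₜ[F] b := by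
  simp [dC]

lemma dC_one_tmul (d : Derivation F K K) (b : B) : dC d ((1 : K) ⊗ₜ[F] b) = 0 := by
  rw [dC_tmul]
  simp

lemma dC_smul (d : Derivation F K K) (k : K) (x : K ⊗[F] B) :
    dC d (k • x) = (d k) • x + k • dC d x := by
  induction x using TensorProduct.induction_on with
  | zero => simp
  | add x1 x2 h1 h2 =>
    simp only [smul_add, map_add, h1, h2]
    abel
  | tmul k' b =>
    simp only [TensorProduct.smul_tmul', dC_tmul, smul_eq_mul, Derivation.leibniz,
      TensorProduct.add_tmul]
    rw [mul_comm (d k) k', add_comm]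

lemma dC_mem (d : Derivation F K K) (S : Submodule F B) (x : K ⊗[F] B)
    (hx : x ∈ S.baseChange K) : dC d x ∈ S.baseChange K := by
  rw [Submodule.baseChange_eq_span] at hx ⊢
  induction hx using Submodule.span_induction with
  | mem x h =>
    obtain ⟨b, hb, rfl⟩ := h
    simp only [TensorProduct.mk_apply]
    rw [dC_one_tmul]
    exact Submodule.zero_mem _
  | zero => simp
  | add x y _ _ hx hy => rw [map_add]; exact Submodule.add_mem _ hx hy
  | smul a x h hx =>
    rw [dC_smul]
    exact Submodule.add_mem _ (Submodule.smul_mem _ _ h) (Submodule.smul_mem _ _ hx)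

/-- contraction with a functional on `K` -/
noncomputable def ctr (l : K →ₗ[F] F) : K ⊗[F] B →ₗ[F] B :=
  (TensorProduct.lid F B).toLinearMap ∘ₗ LinearMap.rTensor B l

lemma ctr_tmul (l : K →ₗ[F] F) (k : K) (b : B) : ctr l (k ⊗ₜ[F] b) = l k • b := by
  simp [ctr]

lemma ctr_mul (l : K →ₗ[F] F) (x : K ⊗[F] B) (b : B) :
    ctr l (x * ((1 : K) ⊗ₜ[F] b)) = ctr l x * b := by
  induction x using TensorProduct.induction_on with
  | zero => simp
  | add x1 x2 h1 h2 => simp only [add_mul, map_add, h1, h2]
  | tmul k b' =>
    rw [Algebra.TensorProduct.tmul_mul_tmul, ctr_tmul, ctr_tmul, mul_one]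
    simp

lemma ctr_mem (l : K →ₗ[F] F) (S : Submodule F B) (x : K ⊗[F] B)
    (hx : x ∈ S.baseChange K) : ctr l x ∈ S := by
  have key : ∀ k : K, ctr l (k • x) ∈ S := by
    rw [Submodule.baseChange_eq_span] at hx
    induction hx using Submodule.span_induction with
    | mem x h =>
      obtain ⟨b, hb, rfl⟩ := h
      intro k
      simp only [TensorProduct.mk_apply]
      rw [TensorProduct.smul_tmul', ctr_tmul]
      exact S.smul_mem _ hb
    | zero => simp
    | add x y _ _ hx hy => intro k; rw [smul_add, map_add]; exact S.add_mem (hx k) (hy k)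
    | smul a x h hx => intro k; rw [smul_smul]; exact hx _
  simpa using key 1

lemma exists_sum (x : K ⊗[F] B) : ∃ (ι : Type) (κ : Module.Basis ι F K) (s : Finset ι) (y : ι → B),
    (∀ i, y i = ctr (κ.coord i) x) ∧ x = ∑ i ∈ s, κ i ⊗ₜ[F] y i := by
  classical
  refine ⟨_, Module.Basis.ofVectorSpace F K, ?_⟩
  set κ := Module.Basis.ofVectorSpace F K
  refine ⟨(TensorProduct.equivFinsuppOfBasisLeft κ x).support,
    fun i => TensorProduct.equivFinsuppOfBasisLeft κ x i, ?_, ?_⟩
  · intro i
    exact TensorProduct.equivFinsuppOfBasisLeft_apply κ x i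
  · have h := (TensorProduct.equivFinsuppOfBasisLeft κ).symm_apply_apply x
    rw [TensorProduct.equivFinsuppOfBasisLeft_symm_apply] at h
    exact h.symm

lemma mem_of_ctr (S : Submodule F B) (x : K ⊗[F] B) (h : ∀ l : K →ₗ[F] F, ctr l x ∈ S) :
    x ∈ S.baseChange K := by
  obtain ⟨ι, κ, s, y, hy, hx⟩ := exists_sum x
  rw [hx]
  refine Submodule.sum_mem _ (fun i _ => ?_)
  apply Submodule.tmul_mem_baseChange_of_mem
  rw [hy]
  exact h _

lemma finrank_baseChange [FiniteDimensional F B] (S : Submodule F B) :
    Module.finrank K (S.baseChange K) = Module.finrank F S := by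
  have hinj : Function.Injective (S.subtype.baseChange K) := by
    rw [LinearMap.baseChange_eq_ltensor]
    exact Module.Flat.lTensor_preserves_injective_linearMap _ S.subtype_injective
  have h1 := LinearMap.finrank_range_of_inj hinj
  have h2 : LinearMap.range (S.subtype.baseChange K) = S.baseChange K := rfl
  rw [h2] at h1
  rw [h1, Module.finrank_baseChange]

end Base

end Pool.Agent.Helper723.Egg
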