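import Mathlib
import Pool.Agent.Helper723.Egg2

set_option autoImplicit false

namespace Pool.Agent.Helper723.Egg

open scoped TensorProduct

/-- a complement of `N` -/
lemma exists_compl0 {F V : Type} [Field F] [AddCommGroup V] [Module F V] [FiniteDimensional F V]
    (N : Submodule F V) :
    ∃ (q : ℕ) (u : Fin q → V),
      q + Module.finrank F N = Module.finrank F V ∧
      (∀ c : Fin q → F, ∑ i, c i • u i ∈ N → c = 0) ∧
      (∀ x : V, ∃ c : Fin q → F, x - ∑ i, c i • u i ∈ N) := by
  obtain ⟨U, hU⟩ := Submodule.exists_isCompl N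
  have hfin := Submodule.finrank_add_eq_of_isCompl hU
  let b := Module.finBasis F U
  refine ⟨Module.finrank F U, fun i => (b i : V), by omega, ?_, ?_⟩
  · intro c hc
    have h1 : (∑ i, c i • b i : U) = 0 := by
      have h3 : ((∑ i, c i • b i : U) : V) ∈ (⊥ : Submodule F V) := by
        rw [← hU.inf_eq_bot]
        refine ⟨?_, (∑ i, c i • b i : U).2⟩
        simpa using hc
      rw [Submodule.mem_bot] at h3
      exact_mod_cast h3
    funext i
    exact linearIndependent_iff'.mp b.linearIndependent Finset.univ c h1 i (Finset.mem_univ i)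
  · intro x
    have h1 : x ∈ N ⊔ U := by
      rw [hU.sup_eq_top]
      exact Submodule.mem_top
    obtain ⟨y, hy, z, hz, hyz⟩ := Submodule.mem_sup.mp h1
    refine ⟨fun i => b.repr ⟨z, hz⟩ i, ?_⟩
    have h2 := b.sum_repr ⟨z, hz⟩
    have h3 : (∑ i, b.repr ⟨z, hz⟩ i • (b i : V)) = z := by
      have h4 := congrArg U.subtype h2
      rw [map_sum] at h4
      simpa only [map_smul, Submodule.subtype_apply] using h4
    rw [h3, ← hyz, add_sub_cancel_right]
    exact hy

section Frob

variable {F K B : Type} [Field F] [Field K] [Algebra F K] [CommRing B] [Algebra F B]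
variable (p : ℕ) [hp : Fact p.Prime] [CharP F p] [CharP B p]

/-- elements whose `p`-th power lies in `W` -/
def frobPre (W : Submodule F B) : Submodule F B where
  carrier := {x | x ^ p ∈ W}
  add_mem' := by
    intro a b ha hb
    simp only [Set.mem_ofPred_eq] at ha hb ⊢
    rw [add_pow_char]
    exact W.add_mem ha hb
  zero_mem' := by
    simp only [Set.mem_ofPred_eq]
    rw [zero_pow hp.out.ne_zero]
    exact W.zero_mem
  smul_mem' := by
    intro c x hx
    simp only [Set.mem_ofPred_eq] at hx ⊢
    rw [smul_pow]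
    exact W.smul_mem _ hx

lemma mem_frobPre (W : Submodule F B) (x : B) : x ∈ frobPre p W ↔ x ^ p ∈ W := Iff.rfl

variable [PerfectRing F p]

lemma exists_root (c : F) : ∃ d : F, d ^ p = c := by
  obtain ⟨d, hd⟩ := surjective_frobenius F p c
  exact ⟨d, hd⟩

lemma indep_pow {ι : Type} (κ : Module.Basis ι F K) [CharP K p] :
    LinearIndependent F (fun i => κ i ^ p) := by
  classical
  rw [linearIndependent_iff']
  intro s g hg i hi
  choose d hd using exists_root (F := F) p
  have h1 : (∑ i ∈ s, d (g i) • κ i) ^ p = 0 := by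
    rw [sum_pow_char]
    rw [← hg]
    refine Finset.sum_congr rfl (fun i _ => ?_)
    rw [smul_pow, hd]
  have h2 : ∑ i ∈ s, d (g i) • κ i = 0 := pow_eq_zero_iff hp.out.ne_zero |>.mp h1
  have h3 := linearIndependent_iff'.mp κ.linearIndependent s _ h2 i hi
  rw [← hd (g i), h3, zero_pow hp.out.ne_zero]

lemma frob_mem [CharP K p] [CharP (K ⊗[F] B) p] (W : Submodule F B) (x : K ⊗[F] B)
    (hx : x ^ p ∈ W.baseChange K) : x ∈ (frobPre p W).baseChange K := by
  classical
  obtain ⟨ι, κ, s, y, hy, hxs⟩ := exists_sum x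
  have hpow : x ^ p = ∑ i ∈ s, (κ i ^ p) ⊗ₜ[F] (y i ^ p) := by
    rw [hxs, sum_pow_char]
    refine Finset.sum_congr rfl (fun i _ => ?_)
    rw [Algebra.TensorProduct.tmul_pow]
  have hli := indep_pow (F := F) (K := K) p κ
  rw [hxs]
  refine Submodule.sum_mem _ (fun i hi => ?_)
  apply Submodule.tmul_mem_baseChange_of_mem
  rw [mem_frobPre]
  have hnot : κ i ^ p ∉ Submodule.span F ((fun i => κ i ^ p) '' {j | j ≠ i}) :=
    hli.notMem_span_image (by simp)
  obtain ⟨f, hf1, hf2⟩ := Submodule.exists_le_ker_of_notMem hnot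
  have h1 : ctr f (x ^ p) = f (κ i ^ p) • (y i ^ p) := by
    rw [hpow, map_sum, Finset.sum_eq_single i]
    · rw [ctr_tmul]
    · intro j _ hj
      rw [ctr_tmul]
      have : f (κ j ^ p) = 0 := by
        have hmem : κ j ^ p ∈ Submodule.span F ((fun i => κ i ^ p) '' {j | j ≠ i}) :=
          Submodule.subset_span ⟨j, hj, rfl⟩
        exact hf2 hmem
      rw [this, zero_smul]
    · intro h
      exact absurd hi h
  have h2 := ctr_mem f W _ hx
  rw [h1] at h2
  have h3 := W.smul_mem (f (κ i ^ p))⁻¹ h2
  rwa [smul_smul, inv_mul_cancel₀ hf1, one_smul] at h3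

lemma frobPre_mono (W : Submodule F B) : frobPre p (⊥ : Submodule F B) ≤ frobPre p W := by
  intro x hx
  rw [mem_frobPre, Submodule.mem_bot] at hx
  rw [mem_frobPre, hx]
  exact W.zero_mem

omit [PerfectRing F p] in
/-- a complement of `N` in `V` -/
lemma exists_compl [FiniteDimensional F B] (N V : Submodule F B) (h : N ≤ V) :
    ∃ (q : ℕ) (u : Fin q → B), (∀ i, u i ∈ V) ∧
      q + Module.finrank F N = Module.finrank F V ∧
      (∀ c : Fin q → F, ∑ i, c i • u i ∈ N → c = 0) ∧
      (∀ x ∈ V, ∃ c : Fin q → F, x - ∑ i, c i • u i ∈ N) := by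
  obtain ⟨q, u, hq, h1, h2⟩ := exists_compl0 (F := F) (V := V) (N.comap V.subtype)
  have hN : Module.finrank F (N.comap V.subtype) = Module.finrank F N :=
    (Submodule.comapSubtypeEquivOfLe h).finrank_eq
  refine ⟨q, fun i => (u i : B), fun i => (u i).2, by omega, ?_, ?_⟩
  · intro c hc
    apply h1
    rw [Submodule.mem_comap]
    simpa using hc
  · intro x hx
    obtain ⟨c, hc⟩ := h2 ⟨x, hx⟩
    refine ⟨c, ?_⟩
    rw [Submodule.mem_comap] at hc
    simpa using hc

lemma finrank_frobPre [FiniteDimensional F B] (W : Submodule F B) :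
    Module.finrank F (frobPre p W) ≤
      Module.finrank F (frobPre p (⊥ : Submodule F B)) + Module.finrank F W := by
  classical
  obtain ⟨q, u, hu, hq, hind, -⟩ := exists_compl (frobPre p (⊥ : Submodule F B)) (frobPre p W)
    (frobPre_mono p W)
  have hli : LinearIndependent F (fun i => (⟨u i ^ p, hu i⟩ : W)) := by
    rw [linearIndependent_iff']
    intro s g hg i hi
    choose d hd using exists_root (F := F) p
    have h1 : ∑ j, (if j ∈ s then d (g j) else 0) • u j ∈ frobPre p (⊥ : Submodule F B) := by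
      rw [mem_frobPre, Submodule.mem_bot, sum_pow_char]
      have h2 := congrArg (fun w : W => (w : B)) hg
      simp only [Submodule.coe_sum, Submodule.coe_smul, Submodule.coe_zero] at h2
      rw [← h2, ← Finset.sum_subset (Finset.subset_univ s)]
      · refine Finset.sum_congr rfl (fun j hj => ?_)
        rw [if_pos hj, smul_pow, hd]
      · intro j _ hj
        rw [if_neg hj, zero_smul, zero_pow hp.out.ne_zero]
    have h3 := congrFun (hind _ h1) i
    simp only [if_pos hi, Pi.zero_apply] at h3
    rw [← hd (g i), h3, zero_pow hp.out.ne_zero]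
  have := hli.fintype_card_le_finrank
  rw [Fintype.card_fin] at this
  omega

omit [PerfectRing F p] in
lemma finrank_span_pow [FiniteDimensional F B] (V : Submodule F B)
    (h : frobPre p (⊥ : Submodule F B) ≤ V) :
    Module.finrank F (Submodule.span F ((fun x : B => x ^ p) '' (V : Set B))) +
      Module.finrank F (frobPre p (⊥ : Submodule F B)) ≤ Module.finrank F V := by
  obtain ⟨q, u, hu, hq, -, hsp⟩ := exists_compl (frobPre p (⊥ : Submodule F B)) V h
  have hle : Submodule.span F ((fun x : B => x ^ p) '' (V : Set B)) ≤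
      Submodule.span F (Set.range (fun i => u i ^ p)) := by
    rw [Submodule.span_le]
    rintro _ ⟨x, hx, rfl⟩
    obtain ⟨c, hc⟩ := hsp x hx
    rw [mem_frobPre, Submodule.mem_bot, sub_pow_char, sub_eq_zero, sum_pow_char] at hc
    simp only [SetLike.mem_coe]
    rw [hc]
    refine Submodule.sum_mem _ (fun i _ => ?_)
    rw [smul_pow]
    exact Submodule.smul_mem _ _ (Submodule.subset_span ⟨i, rfl⟩)
  have h1 := Submodule.finrank_mono hle
  have h2 := finrank_range_le_card (R := F) (fun i => u i ^ p)
  rw [Fintype.card_fin] at h2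
  have h3 : (Set.range (fun i => u i ^ p)).finrank F =
    Module.finrank F (Submodule.span F (Set.range (fun i => u i ^ p))) := rfl
  omega

end Frob

end Pool.Agent.Helper723.Egg
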