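import Mathlib
import Pool.Agent.Helper723.Egg3

set_option autoImplicit false

namespace Pool.Agent.Helper723.Egg

open scoped TensorProduct

section Phi

variable {F K B : Type} [Field F] [Field K] [Algebra F K] [CommRing B] [Algebra F B]

lemma lift_deriv (ψ : B →ₗ[F] K) (d : Derivation F K K) (x : K ⊗[F] B) :
    d (ψ.liftBaseChange K x) = ψ.liftBaseChange K (dC d x) +
      ((d : K →ₗ[F] K) ∘ₗ ψ).liftBaseChange K x := by
  induction x using TensorProduct.induction_on with
  | zero => simp
  | add x1 x2 h1 h2 =>
    simp only [map_add, h1, h2]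
    abel
  | tmul k b =>
    rw [dC_tmul]
    simp only [LinearMap.liftBaseChange_tmul, smul_eq_mul, Derivation.leibniz,
      LinearMap.comp_apply, Derivation.coeFn_coe]
    ring

lemma lift_deriv_zero (ψ : B →ₗ[F] K) (d : Derivation F K K) (h : ∀ b, d (ψ b) = 0)
    (x : K ⊗[F] B) : d (ψ.liftBaseChange K x) = ψ.liftBaseChange K (dC d x) := by
  rw [lift_deriv]
  have : ((d : K →ₗ[F] K) ∘ₗ ψ) = 0 := by
    ext b
    simp [h]
  rw [this]
  simp

/-- constants are detected by the generic functional -/
lemma detect {ι : Type} [DecidableEq ι] (b : Module.Basis ι F B) (ψ : B →ₗ[F] K)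
    (D : ι → Derivation F K K)
    (hD : ∀ i l, D l (ψ (b i)) = if i = l then 1 else 0) (x : K ⊗[F] B)
    (hx : ∀ l, dC (D l) x = 0) (h0 : ψ.liftBaseChange K x = 0) : x = 0 := by
  have key : ∀ l, (b.baseChange K).repr x l = 0 := by
    intro l
    have h1 := lift_deriv ψ (D l) x
    rw [h0, hx l] at h1
    simp only [map_zero, zero_add] at h1
    have h2 : ((D l : K →ₗ[F] K) ∘ₗ ψ).liftBaseChange K = (b.baseChange K).coord l := by
      apply (b.baseChange K).ext
      intro i
      rw [Module.Basis.baseChange_apply]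
      simp [hD, Finsupp.single_apply]
    rw [h2] at h1
    exact h1.symm
  apply (b.baseChange K).repr.injective
  ext l
  rw [key l]
  simp

lemma ideal_like (S : Submodule F B) (hS : ∀ x ∈ S, ∀ y, x * y ∈ S) (x : K ⊗[F] B)
    (hx : x ∈ S.baseChange K) (y : K ⊗[F] B) : x * y ∈ S.baseChange K := by
  rw [Submodule.baseChange_eq_span] at hx
  induction hx using Submodule.span_induction with
  | mem x h =>
    obtain ⟨b, hb, rfl⟩ := h
    simp only [TensorProduct.mk_apply]
    induction y using TensorProduct.induction_on with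
    | zero => simp
    | add y1 y2 h1 h2 =>
      rw [mul_add]
      exact Submodule.add_mem _ h1 h2
    | tmul k b' =>
      rw [Algebra.TensorProduct.tmul_mul_tmul]
      exact Submodule.tmul_mem_baseChange_of_mem _ (hS b hb b')
  | zero => simp
  | add x1 x2 _ _ h1 h2 =>
    rw [add_mul]
    exact Submodule.add_mem _ h1 h2
  | smul k x _ h =>
    rw [smul_mul_assoc]
    exact Submodule.smul_mem _ _ h

lemma mul_mem_bc (S T U : Submodule F B) (h : ∀ x ∈ S, ∀ y ∈ T, x * y ∈ U) (x y : K ⊗[F] B)
    (hx : x ∈ S.baseChange K) (hy : y ∈ T.baseChange K) : x * y ∈ U.baseChange K := by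
  rw [Submodule.baseChange_eq_span] at hx
  induction hx using Submodule.span_induction with
  | mem x h' =>
    obtain ⟨b, hb, rfl⟩ := h'
    simp only [TensorProduct.mk_apply]
    rw [Submodule.baseChange_eq_span] at hy
    induction hy using Submodule.span_induction with
    | mem y h'' =>
      obtain ⟨b', hb', rfl⟩ := h''
      simp only [TensorProduct.mk_apply]
      rw [Algebra.TensorProduct.tmul_mul_tmul]
      exact Submodule.tmul_mem_baseChange_of_mem _ (h b hb b' hb')
    | zero => simp
    | add y1 y2 _ _ h1 h2 =>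
      rw [mul_add]
      exact Submodule.add_mem _ h1 h2
    | smul k y _ h =>
      rw [mul_smul_comm]
      exact Submodule.smul_mem _ _ h
  | zero => simp
  | add x1 x2 _ _ h1 h2 =>
    rw [add_mul]
    exact Submodule.add_mem _ h1 h2
  | smul k x _ h =>
    rw [smul_mul_assoc]
    exact Submodule.smul_mem _ _ h

end Phi

end Pool.Agent.Helper723.Egg
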