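import Mathlib
import Pool.Agent.Helper723.Egg4

set_option autoImplicit false

namespace Pool.Agent.Helper723.Egg

open scoped TensorProduct

/-- the descent along the powers of `v` -/
lemma lemG {F K C J : Type} [Field K] [CommRing C] [Algebra K C] [CommRing F] [Algebra F C]
    (φ : C →ₗ[K] K) (δ : J → Derivation F C C)
    (hφ : ∀ j x, φ x = 0 → φ (δ j x) = 0) (v : C) (u : J → C) (hv : ∀ j, δ j v = u j)
    (U : Submodule K C) (hU : U ≤ Submodule.span K (Set.range u)) (a ρ s : C)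
    (hρ : ∀ j, δ j ρ = 0) (hs : ∀ j, δ j s = 0) (ha : a * ρ ∈ U)
    (hda : ∀ j, δ j a * ρ ∈ U) (e : ℕ) (he : ∀ k, k < e → ((k + 1 : ℕ) : K) ≠ 0)
    (h0 : ∀ c, φ (v ^ e * (a ^ 2 * ρ * s * c)) = 0)
    (h1 : ∀ j c, φ (v ^ e * (a * δ j a * ρ * s * c)) = 0) (c : C) :
    φ (a ^ (e + 2) * ρ ^ (e + 1) * s * c) = 0 := by
  have key : ∀ l k, k + l = e →
      (∀ c, φ (v ^ k * (a ^ (l + 2) * ρ ^ (l + 1) * s * c)) = 0) ∧
      (∀ j c, φ (v ^ k * (a ^ (l + 1) * δ j a * ρ ^ (l + 1) * s * c)) = 0) := by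
    intro l
    induction l with
    | zero =>
      intro k hk
      have : k = e := by omega
      subst this
      refine ⟨fun c => by simpa using h0 c, fun j c => by simpa using h1 j c⟩
    | succ l ih =>
      intro k hk
      obtain ⟨hR, hZ⟩ := ih (k + 1) (by omega)
      have hgen : ∀ j c, φ (v ^ k * u j * (a ^ (l + 2) * ρ ^ (l + 1) * s * c)) = 0 := by
        intro j c
        have e1 := hφ j _ (hR c)
        have e2 : δ j (v ^ (k + 1) * (a ^ (l + 2) * ρ ^ (l + 1) * s * c)) =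
            ((k + 1 : ℕ) : K) • (v ^ k * u j * (a ^ (l + 2) * ρ ^ (l + 1) * s * c)) +
            ((l + 2 : ℕ) : K) • (v ^ (k + 1) * (a ^ (l + 1) * δ j a * ρ ^ (l + 1) * s * c)) +
            v ^ (k + 1) * (a ^ (l + 2) * ρ ^ (l + 1) * s * δ j c) := by
          have e3 : l + 2 - 1 = l + 1 := rfl
          rw [Nat.cast_smul_eq_nsmul, Nat.cast_smul_eq_nsmul]
          simp only [Derivation.leibniz, Derivation.leibniz_pow, hv, hρ, hs,
            smul_eq_mul, nsmul_eq_mul, mul_zero, zero_add,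
            Nat.add_sub_cancel, e3]
          push_cast
          ring
        rw [e2, map_add, map_add, map_smul, map_smul, hZ, hR] at e1
        simp only [smul_eq_mul, mul_zero, add_zero] at e1
        exact (mul_eq_zero.mp e1).resolve_left (he k (by omega))
      have hw : ∀ w ∈ Submodule.span K (Set.range u), ∀ c,
          φ (v ^ k * w * (a ^ (l + 2) * ρ ^ (l + 1) * s * c)) = 0 := by
        intro w hw
        induction hw using Submodule.span_induction with
        | mem x h =>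
          obtain ⟨j, rfl⟩ := h
          exact hgen j
        | zero => intro c; simp
        | add x y _ _ hx hy =>
          intro c
          rw [mul_add, add_mul, map_add, hx, hy, add_zero]
        | smul r x _ hx =>
          intro c
          rw [mul_smul_comm, smul_mul_assoc, map_smul, hx, smul_zero]
      refine ⟨fun c => ?_, fun j c => ?_⟩
      · rw [← hw _ (hU ha) c]
        congr 1
        ring
      · rw [← hw _ (hU (hda j)) c]
        congr 1
        ring
  have := (key e 0 (by omega)).1 c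
  simpa using this

section Core

variable {F K B : Type} [Field F] [Field K] [Algebra F K] [CommRing B] [Algebra F B]

/-- colon of `W` by `M` -/
def colonS (M : Ideal B) (W : Submodule F B) : Submodule F B where
  carrier := {u | ∀ r ∈ M, u * r ∈ W}
  add_mem' := by
    intro a b ha hb r hr
    rw [add_mul]
    exact W.add_mem (ha r hr) (hb r hr)
  zero_mem' := by
    intro r _
    rw [zero_mul]
    exact W.zero_mem
  smul_mem' := by
    intro c x hx r hr
    rw [smul_mul_assoc]
    exact W.smul_mem _ (hx r hr)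

lemma mem_colonS (M : Ideal B) (W : Submodule F B) (u : B) :
    u ∈ colonS M W ↔ ∀ r ∈ M, u * r ∈ W := Iff.rfl

lemma mem_colonS_bc (M : Ideal B) (W : Submodule F B) (x : K ⊗[F] B)
    (h : ∀ r ∈ M, x * ((1 : K) ⊗ₜ[F] r) ∈ W.baseChange K) :
    x ∈ (colonS M W).baseChange K := by
  apply mem_of_ctr
  intro l r hr
  rw [← ctr_mul]
  exact ctr_mem l W _ (h r hr)

lemma frobPre_mul (p : ℕ) [hp : Fact p.Prime] [CharP F p] [CharP B p] :
    ∀ x ∈ frobPre p (⊥ : Submodule F B), ∀ y, x * y ∈ frobPre p (⊥ : Submodule F B) := by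
  intro x hx y
  rw [mem_frobPre, Submodule.mem_bot] at hx ⊢
  rw [mul_pow, hx, zero_mul]

/-- the generic data -/
structure Dat (F K B : Type) [Field F] [Field K] [Algebra F K] [CommRing B] [Algebra F B]
    (p : ℕ) [hp : Fact p.Prime] [CharP F p] [CharP B p] (M : Ideal B)
    (ι J : Type) [DecidableEq ι] [Fintype J] [DecidableEq J] where
  b : Module.Basis ι F B
  ψ : B →ₗ[F] K
  D : ι → Derivation F K K
  hD : ∀ i l, D l (ψ (b i)) = if i = l then 1 else 0
  δ : J → Derivation F K K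
  hδψ : ∀ j x, δ j (ψ x) = 0
  τ : J → K
  hδτ : ∀ i j, δ j (τ i) = if i = j then 1 else 0
  u : J → B
  hu : Submodule.span F (Set.range u) = colonS M (frobPre p (⊥ : Submodule F B))

variable {p : ℕ} [hp : Fact p.Prime] [CharP F p] [CharP B p] {M : Ideal B}
    {ι J : Type} [DecidableEq ι] [Fintype J] [DecidableEq J]

/-- generic functional -/
noncomputable def Dat.φ (d : Dat F K B p M ι J) : K ⊗[F] B →ₗ[K] K := d.ψ.liftBaseChange K

/-- generic element of the colon -/
noncomputable def Dat.v (d : Dat F K B p M ι J) : K ⊗[F] B := ∑ j, d.τ j ⊗ₜ[F] d.u j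

lemma Dat.dv (d : Dat F K B p M ι J) (j : J) : dC (d.δ j) d.v = (1 : K) ⊗ₜ[F] d.u j := by
  rw [Dat.v, map_sum, Finset.sum_eq_single j]
  · rw [dC_tmul, d.hδτ, if_pos rfl]
  · intro i _ hi
    rw [dC_tmul, d.hδτ, if_neg hi, TensorProduct.zero_tmul]
  · intro h
    exact absurd (Finset.mem_univ j) h

lemma Dat.dφ (d : Dat F K B p M ι J) (j : J) (x : K ⊗[F] B) (h : d.φ x = 0) :
    d.φ (dC (d.δ j) x) = 0 := by
  have := lift_deriv_zero d.ψ (d.δ j) (d.hδψ j) x
  rw [Dat.φ] at h ⊢
  rw [← this, h, map_zero]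

lemma Dat.detect (d : Dat F K B p M ι J) (x : K ⊗[F] B)
    (hx : ∀ l, dC (d.D l) x = 0) (h0 : d.φ x = 0) : x = 0 :=
  Egg.detect d.b d.ψ d.D d.hD x hx h0

lemma dC_pow_char (p : ℕ) [CharP (K ⊗[F] B) p] (d : Derivation F K K) (x : K ⊗[F] B) :
    dC d (x ^ p) = 0 := by
  rw [Derivation.leibniz_pow]
  have : (p : K ⊗[F] B) = 0 := CharP.cast_eq_zero _ p
  rw [← Nat.cast_smul_eq_nsmul (K ⊗[F] B), this, zero_smul]

lemma dC_mul_const (d : Derivation F K K) (x : K ⊗[F] B) (r : B) :
    dC d (x * ((1 : K) ⊗ₜ[F] r)) = dC d x * ((1 : K) ⊗ₜ[F] r) := by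
  rw [Derivation.leibniz, dC_one_tmul, smul_zero, zero_add, smul_eq_mul, mul_comm]

lemma Dat.key [CharP K p] (d : Dat F K B p M ι J) (a : K ⊗[F] B) (r1 r2 : B)
    (ha : a * ((1 : K) ⊗ₜ[F] r1) ∈ (colonS M (frobPre p (⊥ : Submodule F B))).baseChange K)
    (h0 : ∀ c, d.φ (d.v ^ (p - 2) *
      (a ^ 2 * ((1 : K) ⊗ₜ[F] r1) * ((1 : K) ⊗ₜ[F] r2) * c)) = 0)
    (h1 : ∀ j c, d.φ (d.v ^ (p - 2) *
      (a * dC (d.δ j) a * ((1 : K) ⊗ₜ[F] r1) * ((1 : K) ⊗ₜ[F] r2) * c)) = 0)
    (c : K ⊗[F] B) :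
    d.φ (a ^ p * ((1 : K) ⊗ₜ[F] r1) ^ (p - 1) * ((1 : K) ⊗ₜ[F] r2) * c) = 0 := by
  have hp2 := hp.out.two_le
  have key := lemG (F := F) d.φ (fun j => dC (d.δ j)) (fun j x h => d.dφ j x h) d.v
    (fun j => (1 : K) ⊗ₜ[F] d.u j) d.dv
    ((colonS M (frobPre p (⊥ : Submodule F B))).baseChange K)
    (by
      rw [← d.hu, Submodule.baseChange_span]
      apply Submodule.span_mono
      rintro _ ⟨_, ⟨j, rfl⟩, rfl⟩
      exact ⟨j, rfl⟩)
    a ((1 : K) ⊗ₜ[F] r1) ((1 : K) ⊗ₜ[F] r2)
    (fun j => dC_one_tmul _ _) (fun j => dC_one_tmul _ _) ha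
    (fun j => by
      rw [← dC_mul_const]
      exact dC_mem _ _ _ ha)
    (p - 2)
    (fun k hk h => by
      rw [CharP.cast_eq_zero_iff K p] at h
      have := Nat.le_of_dvd (by omega) h
      omega)
    h0 h1 c
  rwa [show p - 2 + 2 = p by omega, show p - 2 + 1 = p - 1 by omega] at key

variable [PerfectRing F p] [CharP K p] [CharP (K ⊗[F] B) p]

lemma Dat.c1 (d : Dat F K B p M ι J) (hM : ∃ n, M ^ n = ⊥) (a : K ⊗[F] B)
    (hT : ∀ b ∈ (frobPre p (⊥ : Submodule F B)).baseChange K,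
      d.φ (d.v ^ (p - 2) * (a * b)) = 0) :
    ∀ r ∈ M, a * ((1 : K) ⊗ₜ[F] r) ∈ (frobPre p (⊥ : Submodule F B)).baseChange K := by
  obtain ⟨n, hn⟩ := hM
  have hp2 := hp.out.two_le
  have key : ∀ k i, i + k = n + 1 → 1 ≤ i → ∀ r ∈ M ^ i,
      a * ((1 : K) ⊗ₜ[F] r) ∈ (frobPre p (⊥ : Submodule F B)).baseChange K := by
    intro k
    induction k with
    | zero =>
      intro i hi _ r hr
      have h1 : M ^ i = ⊥ := by
        rw [show i = n + 1 by omega, pow_succ, hn, Ideal.bot_mul]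
      rw [h1, Ideal.mem_bot] at hr
      rw [hr, TensorProduct.tmul_zero, mul_zero]
      exact Submodule.zero_mem _
    | succ k ih =>
      intro i hi h1 r hr
      have IH := ih (i + 1) (by omega) (by omega)
      have hrr : r * r ∈ M ^ (i + 1) := by
        have : r * r ∈ M ^ (i + i) := by
          rw [pow_add]
          exact Ideal.mul_mem_mul hr hr
        exact Ideal.pow_le_pow_right (by omega) this
      have hrr' := IH _ hrr
      have hmul : ((1 : K) ⊗ₜ[F] (r * r)) = ((1 : K) ⊗ₜ[F] r) * ((1 : K) ⊗ₜ[F] r) := by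
        rw [Algebra.TensorProduct.tmul_mul_tmul, mul_one]
      have hk := d.key a r r
        (by
          apply mem_colonS_bc
          intro s hs
          have : r * s ∈ M ^ (i + 1) := by
            rw [pow_succ]
            exact Ideal.mul_mem_mul hr hs
          have h2 := IH _ this
          rwa [show ((1 : K) ⊗ₜ[F] (r * s)) = ((1 : K) ⊗ₜ[F] r) * ((1 : K) ⊗ₜ[F] s) by
            rw [Algebra.TensorProduct.tmul_mul_tmul, mul_one], ← mul_assoc] at h2)
        (by
          intro c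
          have h2 := hT _ (ideal_like _ (frobPre_mul p) _ hrr' c)
          rw [← h2, hmul]
          congr 1
          ring)
        (by
          intro j c
          have h3 := dC_mem (d.δ j) _ _ hrr'
          rw [dC_mul_const] at h3
          have h2 := hT _ (ideal_like _ (frobPre_mul p) _ h3 c)
          rw [← h2, hmul]
          congr 1
          ring)
        1
      apply frob_mem
      have h4 : (a * ((1 : K) ⊗ₜ[F] r)) ^ p = 0 := by
        apply d.detect
        · intro l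
          exact dC_pow_char p _ _
        · rw [← hk]
          congr 1
          rw [mul_pow, mul_one, mul_assoc, ← pow_succ, show p - 1 + 1 = p by omega]
      rw [h4]
      exact Submodule.zero_mem _
  intro r hr
  exact key n 1 (by omega) le_rfl r (by rwa [pow_one])

lemma Dat.c1' (d : Dat F K B p M ι J) (hM : ∃ n, M ^ n = ⊥) (a : K ⊗[F] B)
    (hT : ∀ b ∈ (frobPre p (⊥ : Submodule F B)).baseChange K,
      d.φ (d.v ^ (p - 2) * (a * b)) = 0) :
    a * ((1 : K) ⊗ₜ[F] (1 : B)) ∈
      (colonS M (frobPre p (⊥ : Submodule F B))).baseChange K := by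
  rw [← Algebra.TensorProduct.one_def, mul_one]
  apply mem_colonS_bc
  exact d.c1 hM a hT

lemma Dat.c2 (d : Dat F K B p M ι J) (hM : ∃ n, M ^ n = ⊥) (a : K ⊗[F] B)
    (hT : ∀ b ∈ (frobPre p (⊥ : Submodule F B)).baseChange K,
      d.φ (d.v ^ (p - 2) * (a * b)) = 0) :
    a ∈ (frobPre p (colonS M (⊥ : Submodule F B))).baseChange K := by
  apply frob_mem
  apply mem_colonS_bc
  intro r hr
  have hr' := d.c1 hM a hT r hr
  have hone : ((1 : K) ⊗ₜ[F] (1 : B)) = 1 := rfl
  have hk := d.key a 1 r (d.c1' hM a hT)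
    (by
      intro c
      have h2 := hT _ (ideal_like _ (frobPre_mul p) _ hr' c)
      rw [← h2, hone]
      congr 1
      ring)
    (by
      intro j c
      have h3 := dC_mem (d.δ j) _ _ hr'
      rw [dC_mul_const] at h3
      have h2 := hT _ (ideal_like _ (frobPre_mul p) _ h3 c)
      rw [← h2, hone]
      congr 1
      ring)
    1
  rw [hone, one_pow, mul_one, mul_one] at hk
  have h4 : a ^ p * ((1 : K) ⊗ₜ[F] r) = 0 := by
    apply d.detect _ _ hk
    intro l
    rw [dC_mul_const, dC_pow_char, zero_mul]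
  rw [h4]
  exact Submodule.zero_mem _

lemma Dat.ca (d : Dat F K B p M ι J) (hM : ∃ n, M ^ n = ⊥) (a : K ⊗[F] B)
    (hJ : ∀ c, d.φ (d.v ^ (p - 2) * (a * c)) = 0) :
    a ∈ (frobPre p (⊥ : Submodule F B)).baseChange K := by
  have hone : ((1 : K) ⊗ₜ[F] (1 : B)) = 1 := rfl
  have hk := d.key a 1 1 (d.c1' hM a (fun b _ => hJ b))
    (by
      intro c
      rw [← hJ (a * c), hone]
      congr 1
      ring)
    (by
      intro j c
      rw [← hJ (dC (d.δ j) a * c), hone]
      congr 1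
      ring)
    1
  rw [hone, one_pow, mul_one, mul_one, mul_one] at hk
  have h4 : a ^ p = 0 := by
    apply d.detect _ _ hk
    intro l
    rw [dC_pow_char]
  apply frob_mem
  rw [h4]
  exact Submodule.zero_mem _

end Core

end Pool.Agent.Helper723.Egg
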