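import Mathlib
import Pool.Agent.Helper723.Egg5

set_option autoImplicit false

namespace Pool.Agent.Helper723.Egg

open scoped TensorProduct

lemma finrank_le_of_functional {K V : Type} [Field K] [AddCommGroup V] [Module K V]
    [FiniteDimensional K V] (f : V →ₗ[K] K) (W W' : Submodule K V)
    (h : ∀ x ∈ W, f x = 0 → x ∈ W') :
    Module.finrank K W ≤ Module.finrank K W' + 1 := by
  have h1 := LinearMap.finrank_range_add_finrank_ker (f.domRestrict W)
  have h2 : Module.finrank K (LinearMap.range (f.domRestrict W)) ≤ 1 := by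
    have := Submodule.finrank_le (LinearMap.range (f.domRestrict W))
    rwa [Module.finrank_self] at this
  have h3 : Module.finrank K (LinearMap.ker (f.domRestrict W)) ≤ Module.finrank K W' := by
    rw [← Submodule.finrank_map_subtype_eq]
    apply Submodule.finrank_mono
    rintro _ ⟨x, hx, rfl⟩
    exact h _ x.2 (by simpa using hx)
  omega

section Dim

variable {F K B : Type} [Field F] [Field K] [Algebra F K] [CommRing B] [Algebra F B]
variable {p : ℕ} [hp : Fact p.Prime] [CharP F p] [CharP B p] {M : Ideal B}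
    {ι J : Type} [DecidableEq ι] [Fintype J] [DecidableEq J]

lemma exists_split (hB : ∀ x : B, ∃ c : F, x - algebraMap F B c ∈ M) (x : K ⊗[F] B) :
    ∃ k : K, x - k • (1 : K ⊗[F] B) ∈ (M.restrictScalars F).baseChange K := by
  induction x using TensorProduct.induction_on with
  | zero =>
    refine ⟨0, ?_⟩
    simp
  | add x y hx hy =>
    obtain ⟨k, hk⟩ := hx
    obtain ⟨l, hl⟩ := hy
    refine ⟨k + l, ?_⟩
    have := Submodule.add_mem _ hk hl
    rw [add_smul]
    convert this using 1
    abel
  | tmul k b =>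
    obtain ⟨c, hc⟩ := hB b
    refine ⟨c • k, ?_⟩
    have h1 : k ⊗ₜ[F] b - (c • k) • (1 : K ⊗[F] B) = k ⊗ₜ[F] (b - algebraMap F B c) := by
      rw [TensorProduct.tmul_sub, Algebra.TensorProduct.one_def, TensorProduct.smul_tmul',
        smul_eq_mul, mul_one, TensorProduct.smul_tmul, Algebra.algebraMap_eq_smul_one]
    rw [h1]
    exact Submodule.tmul_mem_baseChange_of_mem _ hc

/-- the bilinear forms -/
noncomputable def Dat.bf (d : Dat F K B p M ι J) (i : ℕ) :
    LinearMap.BilinForm K (K ⊗[F] B) :=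
  (LinearMap.mul K (K ⊗[F] B)).compr₂ (d.φ ∘ₗ LinearMap.mulLeft K (d.v ^ i))

lemma Dat.bf_apply (d : Dat F K B p M ι J) (i : ℕ) (x y : K ⊗[F] B) :
    d.bf i x y = d.φ (d.v ^ i * (x * y)) := rfl

lemma Dat.mem_ker (d : Dat F K B p M ι J) (i : ℕ) (x : K ⊗[F] B) :
    x ∈ (d.bf i).ker ↔ ∀ c, d.φ (d.v ^ i * (x * c)) = 0 := by
  rw [LinearMap.mem_ker, LinearMap.ext_iff]
  rfl

lemma Dat.mem_orth (d : Dat F K B p M ι J) (i : ℕ) (W : Submodule K (K ⊗[F] B))
    (x : K ⊗[F] B) :
    x ∈ (d.bf i).orthogonal W ↔ ∀ b ∈ W, d.φ (d.v ^ i * (x * b)) = 0 := by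
  rw [LinearMap.BilinForm.mem_orthogonal_iff]
  refine forall₂_congr (fun b _ => ?_)
  rw [d.bf_apply, mul_comm b x]

lemma Dat.v_mul (d : Dat F K B p M ι J) (x : K ⊗[F] B)
    (hx : x ∈ (M.restrictScalars F).baseChange K) :
    d.v * x ∈ (frobPre p (⊥ : Submodule F B)).baseChange K := by
  apply mul_mem_bc (colonS M (frobPre p (⊥ : Submodule F B))) (M.restrictScalars F)
  · intro x hx y hy
    exact hx y hy
  · apply Submodule.sum_mem
    intro j _
    apply Submodule.tmul_mem_baseChange_of_mem
    rw [← d.hu]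
    exact Submodule.subset_span ⟨j, rfl⟩
  · exact hx

lemma Dat.step [FiniteDimensional F B] (d : Dat F K B p M ι J)
    (hB : ∀ x : B, ∃ c : F, x - algebraMap F B c ∈ M) (i : ℕ) :
    Module.finrank K ((d.bf i).orthogonal ((frobPre p (⊥ : Submodule F B)).baseChange K)) ≤
      Module.finrank K (d.bf (i + 1)).ker + 1 := by
  apply finrank_le_of_functional (d.φ ∘ₗ LinearMap.mulLeft K (d.v ^ (i + 1)))
  intro a ha h0
  rw [d.mem_ker]
  intro c
  obtain ⟨k, hk⟩ := exists_split (K := K) hB c
  have h1 := (d.mem_orth i _ a).mp ha _ (d.v_mul _ hk)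
  have h2 : d.v ^ (i + 1) * (a * c) = d.v ^ i * (a * (d.v * (c - k • (1 : K ⊗[F] B)))) +
      k • (d.v ^ (i + 1) * a) := by
    rw [mul_sub, mul_sub, mul_sub]
    simp only [mul_smul_comm, mul_one]
    have : d.v ^ i * (a * d.v) = d.v ^ (i + 1) * a := by ring
    rw [this]
    have : d.v ^ i * (a * (d.v * c)) = d.v ^ (i + 1) * (a * c) := by ring
    rw [this]
    abel
  rw [h2, map_add, h1, zero_add, map_smul]
  have h3 : d.φ (d.v ^ (i + 1) * a) = 0 := h0
  rw [h3, smul_zero]

lemma Dat.soc [FiniteDimensional F B] (d : Dat F K B p M ι J)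
    (hB : ∀ x : B, ∃ c : F, x - algebraMap F B c ∈ M) :
    Module.finrank F (colonS M (⊥ : Submodule F B)) ≤
      Module.finrank K (d.bf 0).ker + 1 := by
  rw [← finrank_baseChange (K := K)]
  apply finrank_le_of_functional d.φ
  intro a ha h0
  rw [d.mem_ker]
  intro c
  obtain ⟨k, hk⟩ := exists_split (K := K) hB c
  have h1 : a * (c - k • (1 : K ⊗[F] B)) ∈ (⊥ : Submodule F B).baseChange K := by
    apply mul_mem_bc (colonS M (⊥ : Submodule F B)) (M.restrictScalars F) _ _ _ _ ha hk
    intro x hx y hy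
    exact hx y hy
  rw [Submodule.baseChange_bot, Submodule.mem_bot, mul_sub, sub_eq_zero] at h1
  rw [pow_zero, one_mul, h1, mul_smul_comm, mul_one, map_smul, h0, smul_zero]

variable [PerfectRing F p] [CharP K p] [CharP (K ⊗[F] B) p]

lemma Dat.ker_le (d : Dat F K B p M ι J) (hM : ∃ n, M ^ n = ⊥) (i : ℕ) (hi : i ≤ p - 2) :
    (d.bf i).ker ≤ (frobPre p (⊥ : Submodule F B)).baseChange K := by
  intro a ha
  rw [d.mem_ker] at ha
  apply d.ca hM
  intro c
  rw [← ha (d.v ^ (p - 2 - i) * c)]
  congr 1
  have : d.v ^ (p - 2) = d.v ^ i * d.v ^ (p - 2 - i) := by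
    rw [← pow_add]
    congr 1
    omega
  rw [this]
  ring

lemma Dat.dims [FiniteDimensional F B] (d : Dat F K B p M ι J) (hM : ∃ n, M ^ n = ⊥) (i : ℕ) (hi : i ≤ p - 2) :
    Module.finrank F (frobPre p (⊥ : Submodule F B)) +
      Module.finrank K
        ((d.bf i).orthogonal ((frobPre p (⊥ : Submodule F B)).baseChange K)) =
      Module.finrank F B + Module.finrank K (d.bf i).ker := by
  have h := LinearMap.BilinForm.finrank_add_finrank_orthogonal' (B := d.bf i)
    ((frobPre p (⊥ : Submodule F B)).baseChange K)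
  rwa [inf_eq_right.mpr (d.ker_le hM i hi), finrank_baseChange, Module.finrank_baseChange] at h

theorem Dat.main [FiniteDimensional F B] (d : Dat F K B p M ι J)
    (hB : ∀ x : B, ∃ c : F, x - algebraMap F B c ∈ M) (hM : ∃ n, M ^ n = ⊥) :
    (p - 1) * Module.finrank F B ≤
      (p - 1) * (Module.finrank F (frobPre p (⊥ : Submodule F B)) + 1) +
        Module.finrank F (frobPre p (⊥ : Submodule F B)) := by
  have hp2 := hp.out.two_le
  have h1 := d.dims hM
  have h2 := d.step hB
  have h3 := d.soc hB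
  have h4 := finrank_frobPre (F := F) (B := B) p (colonS M (⊥ : Submodule F B))
  have h5 : Module.finrank K
      ((d.bf (p - 2)).orthogonal ((frobPre p (⊥ : Submodule F B)).baseChange K)) ≤
      Module.finrank F (frobPre p (colonS M (⊥ : Submodule F B))) := by
    rw [← finrank_baseChange (K := K) (frobPre p (colonS M (⊥ : Submodule F B)))]
    apply Submodule.finrank_mono
    intro a ha
    rw [d.mem_orth] at ha
    exact d.c2 hM a ha
  have h6 : ∀ i ≤ p - 2, i * Module.finrank F B + Module.finrank K (d.bf 0).ker ≤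
      Module.finrank K (d.bf i).ker +
        i * (Module.finrank F (frobPre p (⊥ : Submodule F B)) + 1) := by
    intro i
    induction i with
    | zero => intro _; simp
    | succ i ih =>
      intro hi
      have a1 := ih (by omega)
      have a2 := h1 i (by omega)
      have a3 := h2 i
      have e1 : (i + 1) * Module.finrank F B = i * Module.finrank F B + Module.finrank F B := by
        ring
      have e2 : (i + 1) * (Module.finrank F (frobPre p (⊥ : Submodule F B)) + 1) =
        i * (Module.finrank F (frobPre p (⊥ : Submodule F B)) + 1) +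
          (Module.finrank F (frobPre p (⊥ : Submodule F B)) + 1) := by
        ring
      omega
  have h7 := h6 (p - 2) le_rfl
  have h8 := h1 (p - 2) le_rfl
  have e1 : (p - 1) * Module.finrank F B =
      (p - 2) * Module.finrank F B + Module.finrank F B := by
    rw [show p - 1 = (p - 2) + 1 by omega]
    ring
  have e2 : (p - 1) * (Module.finrank F (frobPre p (⊥ : Submodule F B)) + 1) =
      (p - 2) * (Module.finrank F (frobPre p (⊥ : Submodule F B)) + 1) +
        (Module.finrank F (frobPre p (⊥ : Submodule F B)) + 1) := by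
    rw [show p - 1 = (p - 2) + 1 by omega]
    ring
  omega

end Dim

end Pool.Agent.Helper723.Egg
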