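import Mathlib
import Pool.Agent.Helper723.Egg1
import Pool.Agent.Helper723.Egg6

set_option autoImplicit false

namespace Pool.Agent.Helper723.Egg

open scoped TensorProduct

/-- generator of the rational function field -/
noncomputable def gX (F : Type) [Field F] {σ : Type} (i : σ) : Kf F σ :=
  algebraMap (MvPolynomial σ F) (Kf F σ) (MvPolynomial.X i)

open scoped Classical in
lemma dK_gX (F : Type) [Field F] {σ : Type} (i j : σ) :
    dK F i (gX F j) = if j = i then 1 else 0 := dK_X F i j

/-- existence of generic data -/
lemma exists_dat (F B : Type) [Field F] [CommRing B] [Algebra F B] [FiniteDimensional F B]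
    (p : ℕ) [hp : Fact p.Prime] [CharP F p] [CharP B p] (M : Ideal B) :
    ∃ a b : ℕ, Nonempty (Dat F (Kf F (Fin a ⊕ Fin b)) B p M (Fin a) (Fin b)) := by
  classical
  let A : Submodule F B := colonS M (frobPre p (⊥ : Submodule F B))
  let β := Module.finBasis F B
  let γ := Module.finBasis F A
  refine ⟨Module.finrank F B, Module.finrank F A, ⟨?_⟩⟩
  refine
    { b := β
      ψ := β.constr F (fun i => gX F (Sum.inl i))
      D := fun l => dK F (Sum.inl l)
      hD := ?_
      δ := fun j => dK F (Sum.inr j)
      hδψ := ?_
      τ := fun j => gX F (Sum.inr j)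
      hδτ := ?_
      u := fun j => (γ j : B)
      hu := ?_ }
  · intro i l
    rw [Module.Basis.constr_basis, dK_gX]
    simp only [Sum.inl.injEq]
  · intro j x
    have h0 : (LinearMap.comp ((dK F (Sum.inr j) : Derivation F
        (Kf F (Fin (Module.finrank F B) ⊕ Fin (Module.finrank F A)))
        (Kf F (Fin (Module.finrank F B) ⊕ Fin (Module.finrank F A)))) :
        Kf F (Fin (Module.finrank F B) ⊕ Fin (Module.finrank F A)) →ₗ[F]
        Kf F (Fin (Module.finrank F B) ⊕ Fin (Module.finrank F A)))
        (β.constr F (fun i => gX F (Sum.inl i)))) = 0 := by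
      apply β.ext
      intro i
      rw [LinearMap.comp_apply, Module.Basis.constr_basis, Derivation.coeFn_coe, dK_gX,
        if_neg (by simp)]
      rfl
    exact DFunLike.congr_fun h0 x
  · intro i j
    rw [dK_gX]
    simp only [Sum.inr.injEq]
  · have h1 := congrArg (Submodule.map A.subtype) γ.span_eq
    rw [Submodule.map_span, Submodule.map_top, Submodule.range_subtype, ← Set.range_comp] at h1
    exact h1

theorem local_ineq (F B : Type) [Field F] [CommRing B] [Algebra F B] [FiniteDimensional F B]
    [Nontrivial B] (p : ℕ) [hp : Fact p.Prime] [CharP F p] [PerfectRing F p] (M : Ideal B)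
    (hB : ∀ x : B, ∃ c : F, x - algebraMap F B c ∈ M) (hM : ∃ n, M ^ n = ⊥) :
    p * Module.finrank F (Submodule.span F ((fun x : B => x ^ p) '' (M : Set B))) ≤
      Module.finrank F (M.restrictScalars F) := by
  have : CharP B p := charP_of_injective_algebraMap (algebraMap F B).injective p
  obtain ⟨a, b, ⟨d⟩⟩ := exists_dat F B p M
  set K := Kf F (Fin a ⊕ Fin b) with hK
  have : CharP K p := charP_of_injective_algebraMap (algebraMap F K).injective p
  have : Nontrivial (K ⊗[F] B) := by
    apply Module.nontrivial_of_finrank_pos (R := K)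
    rw [Module.finrank_baseChange]
    exact Module.finrank_pos
  have : CharP (K ⊗[F] B) p :=
    charP_of_injective_algebraMap (algebraMap F (K ⊗[F] B)).injective p
  have h1 := d.main hB hM
  have hNM : frobPre p (⊥ : Submodule F B) ≤ M.restrictScalars F := by
    intro x hx
    rw [mem_frobPre, Submodule.mem_bot] at hx
    obtain ⟨c, hc⟩ := hB x
    obtain ⟨n, hn⟩ := hM
    have h2 : IsNilpotent (x - algebraMap F B c) := by
      refine ⟨n, ?_⟩
      have := Ideal.pow_mem_pow hc n
      rwa [hn, Ideal.mem_bot] at this
    have h3 : IsNilpotent x := ⟨p, hx⟩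
    have h4 : IsNilpotent (algebraMap F B c) := by
      have := Commute.isNilpotent_sub (Commute.all _ _) h3 h2
      rwa [sub_sub_cancel] at this
    rw [IsNilpotent.map_iff (algebraMap F B).injective] at h4
    have h5 : c = 0 := h4.eq_zero
    rw [h5, map_zero, sub_zero] at hc
    exact hc
  have h2 := finrank_span_pow (F := F) p (M.restrictScalars F) hNM
  have h3 : Module.finrank F (M.restrictScalars F) + 1 ≤ Module.finrank F B := by
    have hlt : M.restrictScalars F < (⊤ : Submodule F B) := by
      rw [lt_top_iff_ne_top]
      intro h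
      have h1 : (1 : B) ∈ M.restrictScalars F := by rw [h]; exact Submodule.mem_top
      obtain ⟨n, hn⟩ := hM
      have := Ideal.pow_mem_pow (show (1 : B) ∈ M from h1) n
      rw [hn, Ideal.mem_bot, one_pow] at this
      exact one_ne_zero this
    have := Submodule.finrank_lt_finrank_of_lt hlt
    rw [finrank_top] at this
    exact this
  have hp2 := hp.out.two_le
  have h2' : Module.finrank F (Submodule.span F ((fun x : B => x ^ p) '' (M : Set B))) +
      Module.finrank F (frobPre p (⊥ : Submodule F B)) ≤
        Module.finrank F (M.restrictScalars F) := h2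
  generalize Module.finrank F (Submodule.span F ((fun x : B => x ^ p) '' (M : Set B))) = m at *
  generalize Module.finrank F (frobPre p (⊥ : Submodule F B)) = n at *
  generalize Module.finrank F (M.restrictScalars F) = D at *
  obtain ⟨e, rfl⟩ : ∃ e, p = e + 1 := ⟨p - 1, by omega⟩
  rw [Nat.add_sub_cancel] at h1
  have h4 : e * (D + 1) ≤ e * (n + 1) + n := le_trans (Nat.mul_le_mul_left e h3) h1
  have h5 : e * (m + n) ≤ e * D := Nat.mul_le_mul_left e h2'
  nlinarith

theorem eggert (p : ℕ) (F : Type) [Field F] [hp : Fact p.Prime] [CharP F p] [PerfectRing F p]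
    (A : Type) [CommRing A] [Algebra F A] [FiniteDimensional F A] (I : Ideal A)
    (hI : IsNilpotent I) :
    p * Module.finrank F (Submodule.span F ((fun x : A => x ^ p) '' (I : Set A)))
      ≤ Module.finrank F (Submodule.restrictScalars F I) := by
  rcases subsingleton_or_nontrivial A with hA | hA
  · have : Module.finrank F (Submodule.span F ((fun x : A => x ^ p) '' (I : Set A))) = 0 :=
      Module.finrank_zero_of_subsingleton
    rw [this, mul_zero]
    exact Nat.zero_le _
  · let B : Subalgebra F A :=
      (⊥ : Subalgebra F (A ⧸ I)).comap (Ideal.Quotient.mkₐ F I)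
    have hmem : ∀ x : A, x ∈ B ↔ ∃ c : F, x - algebraMap F A c ∈ I := by
      intro x
      constructor
      · intro hx
        have h1 : Ideal.Quotient.mkₐ F I x ∈ (⊥ : Subalgebra F (A ⧸ I)) := hx
        obtain ⟨c, hc⟩ := Algebra.mem_bot.mp h1
        refine ⟨c, ?_⟩
        rw [← Ideal.Quotient.mk_eq_mk_iff_sub_mem]
        exact hc.symm
      · rintro ⟨c, hc⟩
        rw [← Ideal.Quotient.mk_eq_mk_iff_sub_mem] at hc
        show Ideal.Quotient.mkₐ F I x ∈ (⊥ : Subalgebra F (A ⧸ I))
        exact Algebra.mem_bot.mpr ⟨c, hc.symm⟩
    have hIB : ∀ x ∈ I, x ∈ B := by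
      intro x hx
      rw [hmem]
      exact ⟨0, by rwa [map_zero, sub_zero]⟩
    let M : Ideal B := I.comap B.val
    let f : B →ₗ[F] A := B.val.toLinearMap
    have hf : Function.Injective f := Subtype.val_injective
    have h := local_ineq F B p M
      (by
        rintro ⟨x, hx⟩
        obtain ⟨c, hc⟩ := (hmem x).mp hx
        exact ⟨c, hc⟩)
      (by
        obtain ⟨n, hn⟩ := hI
        refine ⟨n, ?_⟩
        rw [eq_bot_iff]
        refine (Ideal.le_comap_pow B.val n).trans ?_
        rw [hn]
        intro x hx
        rw [Ideal.mem_comap] at hx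
        rw [Ideal.mem_bot]
        exact Subtype.ext (by simpa using hx))
    have e1 : Module.finrank F (M.restrictScalars F) = Module.finrank F (I.restrictScalars F) := by
      have h1 : (M.restrictScalars F).map f = I.restrictScalars F := by
        ext x
        constructor
        · rintro ⟨y, hy, rfl⟩
          exact hy
        · intro hx
          exact ⟨⟨x, hIB x hx⟩, hx, rfl⟩
      rw [← h1]
      exact (Submodule.equivMapOfInjective f hf _).finrank_eq
    have e2 : Module.finrank F (Submodule.span F ((fun x : B => x ^ p) '' (M : Set B))) =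
        Module.finrank F (Submodule.span F ((fun x : A => x ^ p) '' (I : Set A))) := by
      have h1 : (Submodule.span F ((fun x : B => x ^ p) '' (M : Set B))).map f =
          Submodule.span F ((fun x : A => x ^ p) '' (I : Set A)) := by
        rw [Submodule.map_span]
        congr 1
        ext x
        constructor
        · rintro ⟨_, ⟨y, hy, rfl⟩, rfl⟩
          exact ⟨y, hy, rfl⟩
        · rintro ⟨y, hy, rfl⟩
          exact ⟨_, ⟨⟨y, hIB y hy⟩, hy, rfl⟩, rfl⟩
      rw [← h1]
      exact (Submodule.equivMapOfInjective f hf _).finrank_eq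
    rw [e1, e2] at h
    exact h

end Pool.Agent.Helper723.Egg
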